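import Pool.Agent.Helper56_LIR.CLE3

/-!
# CLE, part 4: the system
-/

set_option autoImplicit false

open MeasureTheory ProbabilityTheory Function Filter

open scoped ENNReal BigOperators Topology NNReal

noncomputable section

namespace Pool.Agent.LE.IR.H56

open Pool.Agent.Anderson hiding box mem_box card_box
open Pool.Agent.Loc hiding nb
open Pool.Agent.Mob Pool.Agent.Helper54.Bal
  Pool.Agent.Helper96.EXP Pool.Agent.BED
open Pool.Agent.LE.MN Pool.Agent.LE.CL Pool.Agent.LE.CL.H48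

theorem sub_box {d : ℕ} {V : Site d → ℝ} {Λ : Finset (Site d)} {E s : ℝ} {b : Site d} {r₀ m : ℕ}
    {C C' : Finset (Site d)} (hC : C ⊆ box b r₀) (hC' : C' = clu V Λ E s C (box b (r₀ + m))) :
    C' ⊆ box b (r₀ + m) := by
  intro z hz
  rw [hC', mem_clu] at hz
  rcases hz with h | h
  · exact box_mono b (Nat.le_add_right _ _) (hC h)
  · exact h.1

theorem sysT_of {d M : ℕ} [NeZero M] {Cs : ℝ} {V : Site d → ℝ} {Λ : Finset (Site d)}
    {z μ ε lam w l η τ κ s a A' cB D₀ : ℝ} {b : Site d} {r₀ m R n : ℕ}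
    {C C' : Finset (Site d)} (hμ : 0 < μ) (hz : z ≤ 2 * d + 1) (hε : 0 < ε) (hε1 : ε ≤ 1 / 50)
    (hF : FlatE ε z μ (fun x : Tor d M => V (b + rep x)))
    (hsrc : ∀ x : Tor d M,
      (∀ y, aop (om z μ fun x : Tor d M => V (b + rep x)) (1 / μ) lam
        (fun u => sfn z μ lam (fun x : Tor d M => V (b + rep x)) n x u) y =
        (if y = x then ((om z μ fun x : Tor d M => V (b + rep x)) x : ℂ) else 0) -
          Sfn z μ lam (fun x : Tor d M => V (b + rep x)) n x y) ∧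
      (∀ p, ‖ft (sfn z μ lam (fun x : Tor d M => V (b + rep x)) n x) p‖ ≤ Cs * n) ∧
      ∑ y, ‖sfn z μ lam (fun x : Tor d M => V (b + rep x)) n x y‖ ^ 2 ≤
        Cs * growth d n * (1 + Real.log n) ∧
      (∀ p, ‖ft (Sfn z μ lam (fun x : Tor d M => V (b + rep x)) n x) p‖ ≤ Cs) ∧
      ∑ y, ‖Sfn z μ lam (fun x : Tor d M => V (b + rep x)) n x y‖ ^ 2 ≤
        Cs * (1 / (n : ℝ)) ^ ((d : ℝ) / 2) ∧
      ∀ p, ‖ft (Sfn z μ lam (fun x : Tor d M => V (b + rep x)) n x) p -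
        (starRingEnd ℂ) (ec p x)‖ ≤
        Cs * (ε + n * (lam + 1 / μ) + Real.sqrt (ds p * (n * (1 + Real.log n)))))
    (hCs : 0 ≤ Cs) (hA' : Cs ≤ A') (hn : 1 ≤ n)
    (hlam : 0 ≤ lam) (hlam1 : lam ≤ 1) (hκ : 0 ≤ κ) (hκ1 : κ ≤ 1)
    (hφ : 16 * d * κ = cB * η) (hR : 2 * R + 5 ≤ M) (hrR : r₀ + m ≤ R)
    (hΛ : box b (r₀ + m + 1) ⊆ Λ) (hC0 : b ∈ C) (hC : C ⊆ box b r₀) (hm : 1 ≤ m)
    (hC' : C' = clu V Λ (z - lam) s C (box b (r₀ + m))) (hcard : C'.card ≤ 2 * C.card)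
    (hdet : (RM V Λ (z - lam)).det ≠ 0)
    (hG : ∀ x ∈ box b (r₀ + m), ∀ y ∈ box b (r₀ + m), |gr V Λ (z - lam) x y| ≤ Real.exp a)
    (hnum : 4 * ((2 * ((r₀ + m + 1 : ℕ) : ℝ) + 1) ^ d *
      ((4 * d + 2) * (Real.exp (-s) + Real.exp (a - κ * m))) ^ 2) ≤ cB * η * D₀)
    (hW : FBd (om z μ fun x : Tor d M => V (b + rep x)) (1 / μ) lam w l η τ) :
    SysT (om z μ fun x : Tor d M => V (b + rep x)) (1 / μ) lam w l η τ (cB * η) (cB * η * D₀)
      A' (1 / n) (Cs * growth d n * (1 + Real.log n))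
      (Cs * (ε + n * (lam + 1 / μ) + Real.sqrt (4 * l * (n * (1 + Real.log n)))))
      (im M b C) (im M b C')
      (gT (om z μ fun x : Tor d M => V (b + rep x)) V Λ (z - lam) κ b r₀ C')
      (sfn z μ lam (fun x : Tor d M => V (b + rep x)) n)
      (Sfn z μ lam (fun x : Tor d M => V (b + rep x)) n)
      (FT (om z μ fun x : Tor d M => V (b + rep x)) V Λ (z - lam) κ b r₀ C')
      (eT (om z μ fun x : Tor d M => V (b + rep x)) V Λ (z - lam) κ b r₀ C') := by
  obtain ⟨ω, hω⟩ : ∃ ω : Tor d M → ℝ, ω = om z μ fun x : Tor d M => V (b + rep x) := ⟨_, rfl⟩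
  have hnear : ∀ y, |ω y - 1| ≤ ε := fun y => by rw [hω]; exact om_near hμ hF y
  have heq : ∀ y : Tor d M, (z - V (lf b y)) * ω y -
      ∑ i : Fin d, (ω (y + ev i) + ω (y - ev i)) = 1 / μ := fun y => by
    rw [hω]; exact om_eq hF y
  rw [← hω] at hW hsrc ⊢
  have hωpos : ∀ y, 0 < ω y := by
    intro y
    have h1 := (abs_le.1 (hnear y)).1
    linarith
  have hω2 : ∀ y, ω y ≤ 2 := by
    intro y
    have h1 := (abs_le.1 (hnear y)).2
    linarith
  have hω0 : ∀ y, ω y ≠ 0 := fun y => (hωpos y).ne'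
  have hC'b := sub_box hC hC'
  have hC'R : C' ⊆ box b R := fun y hy => box_mono b hrR (hC'b hy)
  have hCR : C ⊆ box b R := fun y hy => box_mono b (by omega) (hC hy)
  have hCC : C ⊆ C' := fun y hy => by rw [hC', mem_clu]; exact Or.inl hy
  have hd0 : (0 : ℝ) ≤ d := Nat.cast_nonneg d
  have hVb : ∀ x ∈ box b (r₀ + m + 1), |V x - (z - lam)| ≤ 2 * d + 2 := by
    intro x hx
    have h1 := mem_box.1 hx
    have h2 := lf_ti (M := M) hR (by omega : sd b x ≤ R + 2)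
    have h3 : -1 ≤ V (lf b (ti M b x)) := hF.1 (ti M b x)
    have h4 : V (lf b (ti M b x)) ≤ z := V_le hF (ti M b x)
    rw [h2] at h3 h4
    rw [abs_le]
    constructor <;> linarith
  refine ⟨⟨?_, ?_, ?_⟩, ?_, ?_, ?_, ?_, ?_, ?_, ?_, ?_, ?_, hW⟩
  · refine ⟨ti M b b, ?_⟩
    rw [mem_im hR hCR, lf_ti hR (by rw [sd_self]; omega)]
    exact hC0
  · intro x hx
    rw [mem_im hR hCR] at hx
    rw [mem_im hR hC'R]
    exact hCC hx
  · rw [card_im hR hCR, card_im hR hC'R]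
    exact hcard
  · intro x _ y hy
    rw [mem_im hR hC'R] at hy
    unfold gT
    simp only [psr, tg, if_neg hy, mul_zero, zero_div, Complex.ofReal_zero]
  · intro x _ y
    have h1 := heqT (V := V) (Λ := Λ) (κ := κ) (b := b) (r₀ := r₀) (C' := C') (lam := lam) hR hC'R
      hω0 heq x y
    have h2 := (hsrc x).1 y
    have h3 := aop_sub ω (1 / μ) lam (gT ω V Λ (z - lam) κ b r₀ C' x)
      (fun u => sfn z μ lam (fun x : Tor d M => V (b + rep x)) n x u) y
    rw [h1, h2] at h3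
    rw [h3]
    ring
  · intro v
    have h1 := FT_norm (V := V) (Λ := Λ) (E := z - lam) (r₀ := r₀) hR hC'R hωpos hω2 hκ hκ1
      (im M b C) v
    rw [hφ] at h1
    exact h1
  · intro x hx
    rw [mem_im hR hCR] at hx
    have hxb := mem_box.1 (hC hx)
    have h1 := eT_norm (V := V) (Λ := Λ) (E := z - lam) (κ := κ) (b := b) (r₀ := r₀) (m := m)
      (C' := C') (Q := (4 * d + 2) * (Real.exp (-s) + Real.exp (a - κ * m))) hωpos hω2 hC'b
      (x := x) (by omega) (by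
        intro y hy
        have h2 := er_le' (K := 2 * d + 2) hκ hdet hΛ hC hm (by positivity) hC' hVb hG hx hy
        refine le_trans h2 (le_of_eq ?_)
        ring)
    exact le_trans h1 hnum
  · intro x _ p
    refine le_trans ((hsrc x).2.1 p) ?_
    rw [div_div_eq_mul_div, div_one]
    exact mul_le_mul_of_nonneg_right hA' (Nat.cast_nonneg n)
  · intro x _
    exact (hsrc x).2.2.1
  · intro x _ p
    exact le_trans ((hsrc x).2.2.2.1 p) hA'
  · intro x _
    refine le_trans (hsrc x).2.2.2.2.1 ?_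
    exact mul_le_mul_of_nonneg_right hA' (by positivity)
  · intro x _ p hp
    refine le_trans ((hsrc x).2.2.2.2.2 p) (mul_le_mul_of_nonneg_left ?_ hCs)
    have hn1 : (1 : ℝ) ≤ n := by exact_mod_cast hn
    have h1 : 0 ≤ (n : ℝ) * (1 + Real.log n) := by
      have := Real.log_nonneg hn1
      positivity
    have h2 := Real.sqrt_le_sqrt (mul_le_mul_of_nonneg_right hp h1)
    linarith

end Pool.Agent.LE.IR.H56
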