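import Pool.Agent.Helper56_LIR.CLF4

/-!
# CLF: the cluster of a site is large, with free moves
-/

set_option autoImplicit false

open MeasureTheory ProbabilityTheory Function Filter

open scoped ENNReal BigOperators Topology NNReal

noncomputable section

namespace Pool.Agent.LE.IR.H56

open Pool.Agent.Anderson hiding box mem_box card_box
open Pool.Agent.Loc hiding nb
open Pool.Agent.Mob Pool.Agent.Helper54.Bal
  Pool.Agent.Helper96.EXP Pool.Agent.BED
open Pool.Agent.LE.MN Pool.Agent.LE.CL Pool.Agent.LE.CL.H48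

theorem clf (ble : BleStmt) (src : SrcStmt) (sms : SmsStmt) (cvb : CvbStmt) : ClfStmt := by
  intro d A hd hA
  obtain ⟨Cs, hCs, hsrc⟩ := src d hd
  obtain ⟨Cm, hCm, hsms⟩ := sms d hd
  have hAA : A ≤ max A (max Cs Cm) := le_max_left _ _
  have hsA : Cs ≤ max A (max Cs Cm) := le_trans (le_max_left _ _) (le_max_right _ _)
  have hmA : Cm ≤ max A (max Cs Cm) := le_trans (le_max_right _ _) (le_max_right _ _)
  obtain ⟨A', hA'⟩ : ∃ A', A' = max A (max Cs Cm) := ⟨_, rfl⟩
  rw [← hA'] at hAA hsA hmA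
  obtain ⟨c₁, cB, c₂, hc₁, hc₁A, hcB, hcB1, hc₂, hble⟩ := ble d A' hd (hA.trans hAA)
  have hA'0 : 0 < A' := by linarith
  have hc₁1 : c₁ ≤ 1 := by
    refine le_trans hc₁A ?_
    rw [div_le_one hA'0]
    linarith
  have hd3 : (3 : ℝ) ≤ d := by exact_mod_cast hd
  have hd1 : 1 ≤ d := by omega
  have hCs0 : 0 < Cs := by linarith
  obtain ⟨c, hc⟩ : ∃ c : ℝ, c = min (min (1 / 50) c₁) (min cB (min ((cB / (5 * Cs)) ^ 2)
    (cB / (64 * 5 ^ d * (4 * d + 2) ^ 2)))) := ⟨_, rfl⟩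
  have hc50 : c ≤ 1 / 50 := by rw [hc]; exact le_trans (min_le_left _ _) (min_le_left _ _)
  have hcc₁ : c ≤ c₁ := by rw [hc]; exact le_trans (min_le_left _ _) (min_le_right _ _)
  have hccB : c ≤ cB := by rw [hc]; exact le_trans (min_le_right _ _) (min_le_left _ _)
  have hcs : c ≤ (cB / (5 * Cs)) ^ 2 := by
    rw [hc]
    exact le_trans (min_le_right _ _) (le_trans (min_le_right _ _) (min_le_left _ _))
  have hck : c ≤ cB / (64 * 5 ^ d * (4 * d + 2) ^ 2) := by
    rw [hc]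
    exact le_trans (min_le_right _ _) (le_trans (min_le_right _ _) (min_le_right _ _))
  have hc0 : 0 < c := by
    rw [hc]
    refine lt_min (lt_min (by norm_num) hc₁) (lt_min hcB (lt_min (by positivity) ?_))
    positivity
  refine ⟨c₁, c, c₂, Cs + Cm + (d + 1) * (32 * d) / cB + (2 * d + 3) +
    16 * 3 ^ d * (16 * (d : ℝ) + 6) ^ 2 / cB, hc₁, hc₁1, hc0, hc50, hc₂, ?_, ?_⟩
  · have h1 : 0 ≤ (d + 1) * (32 * d) / cB := by positivity
    have h2 : 0 ≤ 16 * 3 ^ d * (16 * (d : ℝ) + 6) ^ 2 / cB := by positivity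
    linarith
  intro M n N R R₁ r₀ J _ V b z μ ε lam w l η τ s a T Kq q hz hμ hlμ hε hεc hw hl hF hW hn hnM hn2
    hη hηc hηn hηd hτ hτ2 hCM hT1 hT2 hKq hq hR hbox hJR hJ hr₀ hr₀R hr₀n ha hR₁ hs hdet hG hnb
  obtain ⟨C, hC⟩ : ∃ C : ℝ, C = Cs + Cm + (d + 1) * (32 * d) / cB + (2 * d + 3) +
    16 * 3 ^ d * (16 * (d : ℝ) + 6) ^ 2 / cB := ⟨_, rfl⟩
  rw [← hC] at hCM hr₀n hR₁ hs
  have hC3 : 0 ≤ (d + 1) * (32 * d) / cB := by positivity
  have hC4 : 0 ≤ 16 * 3 ^ d * (16 * (d : ℝ) + 6) ^ 2 / cB := by positivity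
  have hCCm : Cm ≤ C := by linarith
  have hCd : (d + 1) * (32 * d) / cB ≤ C := by linarith
  have hC5 : 2 * (d : ℝ) + 3 ≤ C := by linarith
  have hC6 : 16 * 3 ^ d * (16 * (d : ℝ) + 6) ^ 2 / cB ≤ C := by linarith
  have hC0 : 0 ≤ C := by linarith
  have hn1 : (1 : ℝ) ≤ n := by exact_mod_cast hn
  have hn0 : (0 : ℝ) < n := by linarith
  have hlogn := Real.log_nonneg hn1
  have hlam : 0 < lam := by
    by_contra h
    have := mul_nonpos_of_nonpos_of_nonneg (not_lt.mp h) hμ.le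
    linarith
  have hη1 : η ≤ 1 := by linarith
  have hL : 0 ≤ Real.log (1 / η) := Real.log_nonneg (by rw [le_div_iff₀ hη]; linarith)
  have hlR : 0 ≤ Real.log R := Real.log_natCast_nonneg R
  have hnl : lam * n ≤ c := by
    refine le_trans ?_ hn2
    refine mul_le_mul_of_nonneg_left ?_ hlam.le
    exact le_mul_of_one_le_right hn0.le (by linarith)
  have hlam1 : lam ≤ 1 := (le_mul_of_one_le_right hlam.le hn1).trans (by linarith)
  have hμ1 : 1 ≤ μ := by
    have h1 : lam * μ ≤ 1 * μ := mul_le_mul_of_nonneg_right hlam1 hμ.le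
    linarith
  have hw1 := (abs_le.1 hw).1
  have hw2 := (abs_le.1 hw).2
  have hw0 : 0 < w := by linarith
  have hμw : 0 < 1 / (μ * w) := by positivity
  have hμw2 : 1 / (μ * w) ≤ lam / 2 := by
    rw [div_le_iff₀ (by positivity)]
    have h1 : 100 * (9 / 10) ≤ (lam * μ) * w :=
      mul_le_mul hlμ (by linarith) (by norm_num) (by positivity)
    have h2 : lam / 2 * (μ * w) = (lam * μ) * w / 2 := by ring
    rw [h2]
    linarith
  have hll : l ≤ lam := by rw [hl]; linarith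
  have hl0 : 0 < l := by rw [hl]; linarith
  have hnl2 : n * l ≤ 1 := by
    have : n * l ≤ n * lam := mul_le_mul_of_nonneg_left hll hn0.le
    linarith
  have hηl : η ≤ l := by
    refine le_trans ?_ hηd
    have h1 : 1 ≤ 1 / (n * l) := by
      rw [le_div_iff₀ (by positivity)]
      linarith
    have h2 : 1 ≤ (1 / (n * l)) ^ d := one_le_pow₀ h1
    exact le_mul_of_one_le_right hη.le h2
  have hκ1 : (1 : ℝ) / n ≤ 1 := by
    rw [div_le_one hn0]
    exact hn1
  have hlκ : 4 * l ≤ 1 / n := by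
    rw [le_div_iff₀ hn0]
    have : l * n ≤ lam * n := mul_le_mul_of_nonneg_right hll hn0.le
    linarith
  have hD0 : 0 < l ^ (((d : ℝ) - 2) / 2) := Real.rpow_pos_of_pos hl0 _
  have hMm : Cm / η ≤ M := le_trans (div_le_div_of_nonneg_right hCCm hη.le) hCM
  have h1μ : 1 / μ ≤ lam := by
    rw [div_le_iff₀ hμ]
    linarith
  have hnlm : n * (lam + 1 / μ) ≤ 1 := by
    have h6 : (n : ℝ) * (lam + 1 / μ) ≤ n * (2 * lam) :=
      mul_le_mul_of_nonneg_left (by linarith) hn0.le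
    linarith
  obtain ⟨hsm1, hsm2⟩ := hsms M l η (1 / n) hη hηl hlκ hκ1 hMm
  have hsm3 := hsm1 (by rw [div_div]; exact hηd)
  have hnum := numT_off (M := M) (A' := A') (μ := μ) (ε := ε) (lam := lam) hd hCs hmA hcB
    hc0.le hccB (by linarith) hcs hw hlam hμ hlμ hl0 hll hε hεc hn hn2 hη hηc hηn hηd hτ hτ2
    hsm3 hsm2
  -- the clusters
  have hJ0 : 0 < J := by
    by_contra hcon
    have h0 : J = 0 := by omega
    rw [h0, pow_zero] at hJ
    have : 0 < (2 * R + 1) ^ d := by positivity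
    omega
  have hRR : 1 ≤ R := by
    have h1 : 1 * 1 ≤ J * R₁ := Nat.mul_le_mul hJ0 (by omega)
    omega
  obtain ⟨j, hj, hcard⟩ := pigeonf (V := V) (Λ := box 0 N) (E := z - lam) (s := s) (b := b)
    (r₀ := r₀) hJ hJR
  have hjR : j * R₁ + R₁ ≤ R := by
    have h1 : (j + 1) * R₁ ≤ J * R₁ := Nat.mul_le_mul_right _ (by omega)
    rw [Nat.succ_mul] at h1
    omega
  obtain ⟨m, hm⟩ : ∃ m, r₀ + 1 + m = R₁ := ⟨R₁ - (r₀ + 1), by omega⟩
  have hpm : j * R₁ + r₀ + 1 + m = j * R₁ + R₁ := by omega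
  have hmR : (R₁ : ℝ) ≤ 2 * m := by exact_mod_cast (by omega : R₁ ≤ 2 * m)
  obtain ⟨κ, hκ⟩ : ∃ κ : ℝ, κ = cB * η / (16 * d) := ⟨_, rfl⟩
  have hκ0 : 0 ≤ κ := by rw [hκ]; positivity
  have hφ : 16 * d * κ = cB * η := by
    rw [hκ]
    field_simp
  have hκ1' : κ ≤ 1 := by
    rw [hκ, div_le_one (by positivity)]
    have h1 : cB * η ≤ 1 * 1 := mul_le_mul hcB1 hη1 hη.le zero_le_one
    linarith
  have hpos : 0 < 64 * 5 ^ d * (4 * (d : ℝ) + 2) ^ 2 := by positivity
  have hηD : η ^ (d + 1) ≤ η * l ^ (((d : ℝ) - 2) / 2) := by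
    rw [pow_succ, mul_comm (η ^ d)]
    refine mul_le_mul_of_nonneg_left ?_ hη.le
    have h1 : η ^ d ≤ l ^ d := pow_le_pow_left₀ hη.le hηl d
    refine le_trans h1 ?_
    rw [← Real.rpow_natCast]
    refine Real.rpow_le_rpow_of_exponent_ge hl0 (by linarith) ?_
    linarith
  have hnum2 := num_eps2 (d := d) (R := R) (n := j * R₁ + r₀ + 1 + m + 1) (c := cB / 4) (η := η)
    (κ := κ) (s := s) (a := a) (K := 4 * d + 2) hRR (by omega) hη hη1 (by positivity) (by
      have h1 := le_trans hηc hck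
      rw [le_div_iff₀ hpos] at h1
      linarith) (m := m) (by
      refine le_trans ?_ hs
      have h1 : (d : ℝ) + 1 ≤ C := by linarith
      calc ((d : ℝ) + 1) * (Real.log (1 / η) + Real.log R) ≤
          C * (Real.log (1 / η) + Real.log R) := mul_le_mul_of_nonneg_right h1 (by linarith)
        _ ≤ C * (1 + Real.log (1 / η) + Real.log R) :=
            mul_le_mul_of_nonneg_left (by linarith) hC0) (by
      have h1 : (d + 1) * (32 * d) / cB * (a + Real.log (1 / η) + Real.log R) ≤ η * R₁ :=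
        le_trans (mul_le_mul_of_nonneg_right hCd (by linarith)) hR₁
      have h2 : (cB / (16 * d)) * ((d + 1) * (32 * d) / cB *
          (a + Real.log (1 / η) + Real.log R)) ≤ (cB / (16 * d)) * (η * R₁) :=
        mul_le_mul_of_nonneg_left h1 (by positivity)
      have h3 : (cB / (16 * d)) * ((d + 1) * (32 * d) / cB *
          (a + Real.log (1 / η) + Real.log R)) =
          2 * ((d + 1) * (a + Real.log (1 / η) + Real.log R)) := by
        field_simp
        ring
      have h4 : (cB / (16 * d)) * (η * R₁) = κ * R₁ := by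
        rw [hκ]
        ring
      rw [h3, h4] at h2
      have h5 : a ≤ (d + 1) * a := le_mul_of_one_le_left ha (by linarith)
      have h6 : κ * R₁ ≤ κ * (2 * m) := mul_le_mul_of_nonneg_left hmR hκ0
      linarith)
  have hnum3 : 4 * ((2 * ((j * R₁ + r₀ + 1 + m + 1 : ℕ) : ℝ) + 1) ^ d *
      ((4 * d + 2) * (Real.exp (-s) + Real.exp (a - κ * m))) ^ 2) ≤
        cB * η * l ^ (((d : ℝ) - 2) / 2) / 4 := by
    refine le_trans hnum2 ?_
    calc cB / 4 * η ^ (d + 1) ≤ cB / 4 * (η * l ^ (((d : ℝ) - 2) / 2)) :=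
          mul_le_mul_of_nonneg_left hηD (by positivity)
      _ = _ := by ring
  have hηn1 : η * n ≤ 1 := by
    have h1 : η * n ≤ η * (1 + Real.log (1 / η)) * n := by
      refine mul_le_mul_of_nonneg_right ?_ hn0.le
      exact le_mul_of_one_le_right hη.le (by linarith)
    linarith
  have hr₀n2 : C * (1 + Real.log (1 / η)) * n ≤ (r₀ : ℝ) ^ 2 := by
    refine le_trans ?_ hr₀n
    refine mul_le_mul_of_nonneg_right (mul_le_mul_of_nonneg_left ?_ hC0) hn0.le
    linarith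
  have htail : ∀ x : Tor d M, ∑ y, ‖aop (om z μ fun x : Tor d M => V (b + rep x)) (1 / μ) lam
      (fun u => sfn z μ lam (fun x : Tor d M => V (b + rep x)) n x u -
        scf z μ lam (fun x : Tor d M => V (b + rep x)) n r₀ x u) y‖ ^ 2 ≤
          cB * η * l ^ (((d : ℝ) - 2) / 2) / 4 := by
    intro x
    refine (scf_tail cvb hd1 hz hμ1 hε (by linarith) hF hn hlam.le (by linarith) x).trans ?_
    refine (tail_num (Cf := C) hn hcB hη hη1 hηn1 hC5 hC6 hr₀n2).trans ?_
    calc cB / 4 * η ^ (d + 1) ≤ cB / 4 * (η * l ^ (((d : ℝ) - 2) / 2)) :=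
          mul_le_mul_of_nonneg_left hηD (by positivity)
      _ = _ := by ring
  have hsrc2 := fun x : Tor d M => hsrc M z μ ε lam (fun x : Tor d M => V (b + rep x)) n x hz hμ
    hε (by linarith) hF hlam.le hnlm hnM hn
  have hboxS : Sf V (box 0 N) (z - lam) s b R₁ r₀ (j + 1) ⊆ box b (j * R₁ + r₀ + 1 + m) := by
    intro y hy
    have h1 := Sf_box (j + 1) hy
    rw [Nat.succ_mul] at h1
    rw [hpm]
    exact h1
  have hsys := sysT_off (M := M) (V := V) (Λ := box 0 N) (z := z) (lam := lam) (w := w) (l := l)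
    (η := η) (τ := τ) (κ := κ) (s := s) (a := a) (A' := A') (cB := cB)
    (D₀ := l ^ (((d : ℝ) - 2) / 2)) (b := b) (p := j * R₁) (r₀ := r₀) (m := m) (R := R) (n := n)
    (C := Sf V (box 0 N) (z - lam) s b R₁ r₀ j)
    (C' := Sf V (box 0 N) (z - lam) s b R₁ r₀ (j + 1))
    hμ hz hε (by linarith) hF hsrc2 htail hCs0.le hsA hn hlam.le hlam1 hκ0 hκ1' hφ hR (by omega)
    (fun y hy => hbox (box_mono b (by omega) hy)) (Sf_self j) (Sf_box j) (by omega) (Sf_sub j)
    (by
      intro y hy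
      rw [mem_Sf_succ]
      rw [hpm] at hy
      exact Or.inl hy) hboxS
    (by
      intro x hx y hxy
      rw [mem_Sf_succ]
      refine Or.inr ⟨?_, x, hx, hxy⟩
      rw [mem_box]
      have h1 := mem_box.1 (Sf_box j hx)
      have h2 := sd_triangle b x y
      omega) hcard hdet
    (fun x hx y hy => hG x (box_mono b (by omega) hx) y (box_mono b (by omega) hy)) hnum3 hW
  have hT1' : 1 ≤ T := by
    refine le_trans ?_ hT1
    rw [le_div_iff₀ hη]
    linarith
  have hc₁η : 0 ≤ c₁ / η := by positivity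
  have hR2 : 2 * R + 5 ≤ M := by omega
  have hC'R : Sf V (box 0 N) (z - lam) s b R₁ r₀ (j + 1) ⊆ box b R := fun y hy =>
    box_mono b (by omega) (hboxS hy)
  have hfin := hble M (2 * R) _ _ _ _ _ _ _ _ _ _ _ _ _ _ T Kq _ _ _ _ _ _ _ q hnum hsys hT1
    (le_trans hT2 (mul_le_mul_of_nonneg_right hAA hc₁η)) hT1' hKq.le
    (tst_mono hA hAA hD0.le hT1' hq) (by
      intro x hx y hy
      rw [mem_im hR2 hC'R] at hx hy
      exact tds_lf (mem_box.1 (hC'R hx)) (mem_box.1 (hC'R hy)))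
  rw [card_im hR2 hC'R] at hfin
  have h1 : (Sf V (box 0 N) (z - lam) s b R₁ r₀ (j + 1)).card ≤
      (rch V (box 0 N) (z - lam) s b R (J * (d * r₀ + 1))).card := by
    refine Finset.card_le_card ?_
    intro y hy
    refine rch_mono (Nat.mul_le_mul_right _ (by omega : j + 1 ≤ J)) (Sf_rch ?_ (j + 1) ?_ hy)
    · intro x hx i
      exact hnb x (box_mono b (Nat.le_succ R) hx) i
    · rw [Nat.succ_mul]
      exact hjR
  have h2 : ((Sf V (box 0 N) (z - lam) s b R₁ r₀ (j + 1)).card : ℝ) ≤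
      (rch V (box 0 N) (z - lam) s b R (J * (d * r₀ + 1))).card := by exact_mod_cast h1
  rw [div_le_iff₀ (by positivity)]
  exact le_trans hfin (mul_le_mul_of_nonneg_right h2 (by positivity))

end Pool.Agent.LE.IR.H56
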