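import Pool.Agent.LE.StmtsJ
import Pool.Agent.Helper48_LSP.CLB
import Pool.Agent.Helper73_BED.Edge

/-!
# CLE, part 1: from the lattice to the torus
-/

set_option autoImplicit false

open MeasureTheory ProbabilityTheory Function Filter

open scoped ENNReal BigOperators Topology NNReal

noncomputable section

namespace Pool.Agent.LE.IR.H56

open Pool.Agent.Anderson hiding box mem_box card_box
open Pool.Agent.Loc Pool.Agent.Mob Pool.Agent.Helper54.Bal
  Pool.Agent.Helper96.EXP Pool.Agent.BED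
open Pool.Agent.LE.MN Pool.Agent.LE.CL Pool.Agent.LE.CL.H48

variable {d M : ℕ}

/-- the site of a point of the torus -/
def lf (b : Site d) (x : Tor d M) : Site d := b + rep x

theorem lf_inj (b : Site d) : Function.Injective (lf b : Tor d M → Site d) := by
  intro x y h
  exact H73.rep_inj (add_left_cancel h)

theorem ti_lf (b : Site d) (x : Tor d M) : ti M b (lf b x) = x := by
  funext i
  change (((b i + (x i).valMinAbs) - b i : ℤ) : ZMod M) = x i
  rw [add_sub_cancel_left, ZMod.coe_valMinAbs]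

theorem abs_sub_le_sd (b y : Site d) (i : Fin d) : |y i - b i| ≤ (sd b y : ℤ) := by
  have h1 : (b i - y i).natAbs ≤ sd b y :=
    Finset.le_sup (f := fun i => (b i - y i).natAbs) (Finset.mem_univ i)
  have h2 : |y i - b i| = ((b i - y i).natAbs : ℤ) := by
    rw [Int.natCast_natAbs, abs_sub_comm]
  rw [h2]
  exact_mod_cast h1

theorem lf_ti [NeZero M] {b y : Site d} {R : ℕ} (hM : 2 * R + 5 ≤ M) (hy : sd b y ≤ R + 2) :
    lf b (ti M b y) = y := by
  have h1 : rep (ti M b y) = y - b := by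
    refine H73.rep_coe (y - b) fun i => ?_
    have h2 := abs_sub_le_sd b y i
    have h3 : (sd b y : ℤ) ≤ R + 2 := by exact_mod_cast hy
    have h4 : 2 * (R : ℤ) + 5 ≤ M := by exact_mod_cast hM
    rw [Pi.sub_apply]
    linarith
  unfold lf
  rw [h1]
  abel

theorem abs_rep_le (b : Site d) (x : Tor d M) (i : Fin d) : |rep x i| ≤ (sd b (lf b x) : ℤ) := by
  have h1 := abs_sub_le_sd b (lf b x) i
  have h2 : lf b x i - b i = rep x i := by
    unfold lf
    rw [Pi.add_apply]
    ring
  rwa [h2] at h1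

theorem lf_add_near [NeZero M] {b : Site d} {x : Tor d M} {R : ℕ} (hM : 2 * R + 5 ≤ M)
    (hx : sd b (lf b x) ≤ R + 1) (i : Fin d) :
    lf b (x + ev i) = lf b x + Pi.single i 1 ∧ lf b (x - ev i) = lf b x - Pi.single i 1 := by
  have h1 : ∀ j, 2 * (|rep x j| + 1) < (M : ℤ) := by
    intro j
    have h2 := abs_rep_le b x j
    have h3 : (sd b (lf b x) : ℤ) ≤ R + 1 := by exact_mod_cast hx
    have h4 : 2 * (R : ℤ) + 5 ≤ M := by exact_mod_cast hM
    linarith
  unfold lf
  rw [H73.rep_add_ev x h1, H73.rep_sub_ev x h1]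
  constructor <;> abel

theorem u_lf [NeZero M] {b : Site d} {R : ℕ} (hM : 2 * R + 5 ≤ M) {X : Type} [Zero X]
    {u : Site d → X} (hu : ∀ y, R < sd b y → u y = 0) (x : Tor d M) (i : Fin d) :
    u (lf b (x + ev i)) = u (lf b x + Pi.single i 1) ∧
      u (lf b (x - ev i)) = u (lf b x - Pi.single i 1) := by
  rcases le_or_gt (sd b (lf b x)) (R + 1) with h | h
  · obtain ⟨h1, h2⟩ := lf_add_near hM h i
    rw [h1, h2]
    exact ⟨rfl, rfl⟩
  · have h3 := sd_step b (lf b x) i
    constructor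
    · rw [hu (lf b x + Pi.single i 1) (by omega)]
      refine hu _ ?_
      by_contra hcon
      rw [not_lt] at hcon
      have h4 := (lf_add_near hM (le_trans hcon (Nat.le_succ _)) i).2
      rw [add_sub_cancel_right] at h4
      have h5 := sd_step b (lf b (x + ev i)) i
      rw [← h4] at h5
      omega
    · rw [hu (lf b x - Pi.single i 1) (by omega)]
      refine hu _ ?_
      by_contra hcon
      rw [not_lt] at hcon
      have h4 := (lf_add_near hM (le_trans hcon (Nat.le_succ _)) i).1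
      rw [sub_add_cancel] at h4
      have h5 := sd_step b (lf b (x - ev i)) i
      rw [← h4] at h5
      omega

theorem nb_lf [NeZero M] {b : Site d} {R : ℕ} (hM : 2 * R + 5 ≤ M) {u : Site d → ℝ}
    (hu : ∀ y, R < sd b y → u y = 0) (x : Tor d M) :
    ∑ i : Fin d, (u (lf b (x + ev i)) + u (lf b (x - ev i))) = CL.nb u (lf b x) := by
  unfold CL.nb
  refine Finset.sum_congr rfl fun i _ => ?_
  obtain ⟨h1, h2⟩ := u_lf hM hu x i
  rw [h1, h2]

theorem sum_lf [NeZero M] (b : Site d) (G : Site d → ℝ) :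
    ∃ B : Finset (Site d), (∀ y : Tor d M, lf b y ∈ B) ∧ (∀ z ∈ B, ∃ y : Tor d M, lf b y = z) ∧
      ∑ x : Tor d M, G (lf b x) = ∑ y ∈ B, G y := by
  classical
  refine ⟨Finset.univ.image (lf b : Tor d M → Site d), fun y => ?_, fun z hz => ?_, ?_⟩
  · exact Finset.mem_image_of_mem _ (Finset.mem_univ y)
  · obtain ⟨y, _, hy⟩ := Finset.mem_image.1 hz
    exact ⟨y, hy⟩
  · rw [Finset.sum_image fun x _ y _ h => lf_inj b h]

theorem tds_lf [NeZero M] {b : Site d} {R : ℕ} {x y : Tor d M}
    (hx : sd b (lf b x) ≤ R) (hy : sd b (lf b y) ≤ R) : tds x y ≤ 2 * R := by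
  unfold tds
  refine Finset.sup_le fun i _ => ?_
  have h1 := abs_rep_le b x i
  have h2 := abs_rep_le b y i
  have h5 : (sd b (lf b x) : ℤ) ≤ R := by exact_mod_cast hx
  have h6 : (sd b (lf b y) : ℤ) ≤ R := by exact_mod_cast hy
  have h7 : (x i).valMinAbs.natAbs ≤ R := by
    have : ((x i).valMinAbs.natAbs : ℤ) ≤ R := by
      rw [Int.natCast_natAbs]
      exact le_trans h1 h5
    exact_mod_cast this
  have h8 : (y i).valMinAbs.natAbs ≤ R := by
    have : ((y i).valMinAbs.natAbs : ℤ) ≤ R := by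
      rw [Int.natCast_natAbs]
      exact le_trans h2 h6
    exact_mod_cast this
  have h9 := ZMod.natAbs_valMinAbs_add_le (y i) (-(x i))
  have h10 := Int.natAbs_add_le (y i).valMinAbs (-(x i)).valMinAbs
  rw [ZMod.natAbs_valMinAbs_neg] at h10
  rw [sub_eq_add_neg]
  omega

/-! ### the operator -/

theorem aop_real [NeZero M] (ω : Tor d M → ℝ) (h lam : ℝ) (f : Tor d M → ℝ) (x : Tor d M) :
    aop ω h lam (fun w => (f w : ℂ)) x =
      ((∑ i : Fin d, (ω x * ω (x + ev i) * (f x - f (x + ev i)) +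
        ω x * ω (x - ev i) * (f x - f (x - ev i))) + (h * ω x - lam * ω x ^ 2) * f x : ℝ) : ℂ) := by
  unfold aop
  push_cast
  rfl

theorem aop_sub [NeZero M] (ω : Tor d M → ℝ) (h lam : ℝ) (f g : Tor d M → ℂ) (x : Tor d M) :
    aop ω h lam (fun w => f w - g w) x = aop ω h lam f x - aop ω h lam g x := by
  unfold aop
  rw [add_sub_add_comm, ← Finset.sum_sub_distrib]
  congr 1
  · refine Finset.sum_congr rfl fun i _ => ?_
    ring
  · ring

theorem aop_eq [NeZero M] {ω V : Tor d M → ℝ} {h lam z : ℝ} (hω : ∀ y, ω y ≠ 0)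
    (heq : ∀ y, (z - V y) * ω y - ∑ i : Fin d, (ω (y + ev i) + ω (y - ev i)) = h)
    (u : Tor d M → ℝ) (y : Tor d M) :
    aop ω h lam (fun w => ((u w / ω w : ℝ) : ℂ)) y =
      ((ω y * ((z - lam - V y) * u y - ∑ i : Fin d, (u (y + ev i) + u (y - ev i))) : ℝ) : ℂ) := by
  rw [aop_real]
  congr 1
  have h1 : ∀ i : Fin d, ω y * ω (y + ev i) * (u y / ω y - u (y + ev i) / ω (y + ev i)) +
      ω y * ω (y - ev i) * (u y / ω y - u (y - ev i) / ω (y - ev i)) =
      u y * (ω (y + ev i) + ω (y - ev i)) - ω y * (u (y + ev i) + u (y - ev i)) := by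
    intro i
    have a1 := hω y
    have a2 := hω (y + ev i)
    have a3 := hω (y - ev i)
    field_simp
    ring
  rw [Finset.sum_congr rfl fun i _ => h1 i, Finset.sum_sub_distrib, ← Finset.mul_sum,
    ← Finset.mul_sum]
  have h2 : (h * ω y - lam * ω y ^ 2) * (u y / ω y) = (h - lam * ω y) * u y := by
    have a1 := hω y
    field_simp
  rw [h2, ← heq y]
  ring

end Pool.Agent.LE.IR.H56
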