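import Pool.Agent.Helper56_LIR.CLE1

/-!
# CLE, part 2: the system on the torus
-/

set_option autoImplicit false

open MeasureTheory ProbabilityTheory Function Filter

open scoped ENNReal BigOperators Topology NNReal

noncomputable section

namespace Pool.Agent.LE.IR.H56

open Pool.Agent.Anderson hiding box mem_box card_box
open Pool.Agent.Loc hiding nb
open Pool.Agent.Mob Pool.Agent.Helper54.Bal
  Pool.Agent.Helper96.EXP Pool.Agent.BED
open Pool.Agent.LE.MN Pool.Agent.LE.CL Pool.Agent.LE.CL.H48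

variable {d M : ℕ}

variable {V : Site d → ℝ} {Λ : Finset (Site d)} {E κ : ℝ} {b : Site d} {r₀ m : ℕ}
  {C C' : Finset (Site d)}

/-- the error of the truncation is small -/
theorem er_le' {s a K : ℝ} (hκ : 0 ≤ κ) (hdet : (RM V Λ E).det ≠ 0)
    (hΛ : box b (r₀ + m + 1) ⊆ Λ) (hC : C ⊆ box b r₀) (hm : 1 ≤ m) (hK0 : 0 ≤ K)
    (hC' : C' = clu V Λ E s C (box b (r₀ + m)))
    (hV : ∀ x ∈ box b (r₀ + m + 1), |V x - E| ≤ K)
    (hG : ∀ x ∈ box b (r₀ + m), ∀ y ∈ box b (r₀ + m), |gr V Λ E x y| ≤ Real.exp a)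
    {x y : Site d} (hx : x ∈ C) (hy : y ∈ box b (r₀ + m + 1)) :
    |er V Λ E κ b r₀ C' x y| ≤ (2 * d + K) * (Real.exp (-s) + Real.exp (a - κ * m)) := by
  have hC'b : C' ⊆ box b (r₀ + m) := by
    intro z hz
    rw [hC', mem_clu] at hz
    rcases hz with h | h
    · exact box_mono b (Nat.le_add_right _ _) (hC h)
    · exact h.1
  have hxb : sd b x ≤ r₀ := mem_box.1 (hC hx)
  have hxb' : x ∈ box b (r₀ + m) := box_mono b (Nat.le_add_right _ _) (hC hx)
  have hyV := hV y hy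
  have hd : (0 : ℝ) ≤ d := Nat.cast_nonneg d
  rcases Nat.lt_or_ge (sd b y) (r₀ + m) with h | h
  · -- inside
    have hout : ∀ z : Site d, sd b z ≤ r₀ + m →
        |gr V Λ E x z - tg V Λ E C' x z| ≤ Real.exp (-s) := by
      intro z hz
      unfold tg
      split_ifs with h1
      · rw [sub_self, abs_zero]
        exact (Real.exp_pos _).le
      · rw [sub_zero]
        by_contra hcon
        rw [not_le] at hcon
        apply h1
        rw [hC', mem_clu]
        exact Or.inr ⟨mem_box.2 hz, x, hx, hcon.le⟩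
    have hgr := green_gen hdet (hΛ (box_mono b (Nat.le_succ _) hxb')) (hΛ hy)
    have h2 : nb (tg V Λ E C' x) y = nb (gr V Λ E x) y -
        nb (fun z => gr V Λ E x z - tg V Λ E C' x z) y := by
      unfold nb
      rw [← Finset.sum_sub_distrib]
      refine Finset.sum_congr rfl fun i _ => ?_
      ring
    have h3 : er V Λ E κ b r₀ C' x y = -(wt κ b r₀ y *
        (nb (fun z => gr V Λ E x z - tg V Λ E C' x z) y +
          (V y - E) * (gr V Λ E x y - tg V Λ E C' x y))) := by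
      unfold er
      rw [h2]
      have h4 : wt κ b r₀ y * (if y = x then (1 : ℝ) else 0) = if y = x then 1 else 0 := by
        split_ifs with h5
        · rw [h5, wt_eq_one hxb, mul_one]
        · rw [mul_zero]
      have h5 : nb (gr V Λ E x) y = -(if y = x then 1 else 0) - (V y - E) * gr V Λ E x y := by
        linarith
      rw [h5]
      linear_combination -h4
    rw [h3, abs_neg, abs_mul, abs_of_pos (wt_pos _ _ _ _)]
    have h6 : |nb (fun z => gr V Λ E x z - tg V Λ E C' x z) y| ≤ 2 * d * Real.exp (-s) := by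
      refine nb_abs_le fun i => ?_
      have h7 := sd_step b y i
      exact ⟨hout _ (by omega), hout _ (by omega)⟩
    have h8 : |(V y - E) * (gr V Λ E x y - tg V Λ E C' x y)| ≤ K * Real.exp (-s) := by
      rw [abs_mul]
      exact mul_le_mul hyV (hout y (by omega)) (abs_nonneg _) hK0
    have h9 : |nb (fun z => gr V Λ E x z - tg V Λ E C' x z) y +
        (V y - E) * (gr V Λ E x y - tg V Λ E C' x y)| ≤ (2 * d + K) * Real.exp (-s) := by
      refine le_trans (abs_add_le _ _) ?_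
      linarith
    have h10 : 0 ≤ (2 * d + K) * Real.exp (a - κ * m) := by positivity
    calc wt κ b r₀ y * |nb (fun z => gr V Λ E x z - tg V Λ E C' x z) y +
          (V y - E) * (gr V Λ E x y - tg V Λ E C' x y)| ≤ 1 * ((2 * d + K) * Real.exp (-s)) :=
          mul_le_mul (wt_le_one hκ _ _ _) h9 (abs_nonneg _) zero_le_one
      _ ≤ (2 * d + K) * (Real.exp (-s) + Real.exp (a - κ * m)) := by linarith
  · -- near the boundary
    have htg : ∀ z : Site d, |tg V Λ E C' x z| ≤ Real.exp a := by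
      intro z
      unfold tg
      split_ifs with h1
      · exact hG x hxb' z (hC'b h1)
      · rw [abs_zero]
        exact (Real.exp_pos _).le
    have hyx : y ≠ x := by
      rintro rfl
      omega
    unfold er
    rw [if_neg hyx, add_zero, abs_mul, abs_of_pos (wt_pos _ _ _ _)]
    have h6 : |nb (tg V Λ E C' x) y| ≤ 2 * d * Real.exp a :=
      nb_abs_le fun i => ⟨htg _, htg _⟩
    have h8 : |(V y - E) * tg V Λ E C' x y| ≤ K * Real.exp a := by
      rw [abs_mul]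
      exact mul_le_mul hyV (htg y) (abs_nonneg _) hK0
    have h9 : |nb (tg V Λ E C' x) y + (V y - E) * tg V Λ E C' x y| ≤
        (2 * d + K) * Real.exp a := by
      refine le_trans (abs_add_le _ _) ?_
      linarith
    have h10 : 0 ≤ (2 * d + K) * Real.exp (-s) := by positivity
    have h11 : Real.exp (-(κ * m)) * Real.exp a = Real.exp (a - κ * m) := by
      rw [← Real.exp_add]
      congr 1
      ring
    calc wt κ b r₀ y * |nb (tg V Λ E C' x) y + (V y - E) * tg V Λ E C' x y| ≤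
          Real.exp (-(κ * m)) * ((2 * d + K) * Real.exp a) :=
          mul_le_mul (wt_le hκ h) h9 (abs_nonneg _) (Real.exp_pos _).le
      _ = (2 * d + K) * Real.exp (a - κ * m) := by rw [← h11]; ring
      _ ≤ (2 * d + K) * (Real.exp (-s) + Real.exp (a - κ * m)) := by linarith

/-- the truncated Green functions on the torus -/
def gT (ω : Tor d M → ℝ) (V : Site d → ℝ) (Λ : Finset (Site d)) (E κ : ℝ) (b : Site d) (r₀ : ℕ)
    (C' : Finset (Site d)) (x y : Tor d M) : ℂ :=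
  ((psr V Λ E κ b r₀ C' (lf b x) (lf b y) / ω y : ℝ) : ℂ)

/-- the error of the weight on the torus -/
def FT (ω : Tor d M → ℝ) (V : Site d → ℝ) (Λ : Finset (Site d)) (E κ : ℝ) (b : Site d) (r₀ : ℕ)
    (C' : Finset (Site d)) (x y : Tor d M) : ℂ :=
  ((-(ω y * fr V Λ E κ b r₀ C' (lf b x) (lf b y)) : ℝ) : ℂ)

/-- the error of the truncation on the torus -/
def eT (ω : Tor d M → ℝ) (V : Site d → ℝ) (Λ : Finset (Site d)) (E κ : ℝ) (b : Site d) (r₀ : ℕ)
    (C' : Finset (Site d)) (x y : Tor d M) : ℂ :=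
  ((-(ω y * er V Λ E κ b r₀ C' (lf b x) (lf b y)) : ℝ) : ℂ)

theorem heqT [NeZero M] {R : ℕ} {ω : Tor d M → ℝ} {h lam z : ℝ} (hM : 2 * R + 5 ≤ M)
    (hC' : C' ⊆ box b R) (hω : ∀ y, ω y ≠ 0)
    (heq : ∀ y : Tor d M, (z - V (lf b y)) * ω y -
      ∑ i : Fin d, (ω (y + ev i) + ω (y - ev i)) = h) (x y : Tor d M) :
    aop ω h lam (gT ω V Λ (z - lam) κ b r₀ C' x) y =
      (if y = x then (ω x : ℂ) else 0) + FT ω V Λ (z - lam) κ b r₀ C' x y +
        eT ω V Λ (z - lam) κ b r₀ C' x y := by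
  have h1 := aop_eq (V := fun w => V (lf b w)) (lam := lam) hω heq
    (fun w => psr V Λ (z - lam) κ b r₀ C' (lf b x) (lf b w)) y
  change aop ω h lam (fun w => ((psr V Λ (z - lam) κ b r₀ C' (lf b x) (lf b w) / ω w : ℝ) : ℂ)) y = _
  rw [h1]
  have h2 := nb_lf hM (u := psr V Λ (z - lam) κ b r₀ C' (lf b x))
    (fun w hw => psr_out hC' hw) y
  rw [h2]
  have h3 := real_eq (V := V) (Λ := Λ) (E := z - lam) (κ := κ) (b := b) (r₀ := r₀) (C' := C')
    (lf b x) (lf b y)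
  have h4 : (if lf b y = lf b x then (1 : ℝ) else 0) = if y = x then 1 else 0 := by
    by_cases hyx : y = x
    · rw [if_pos hyx, if_pos (by rw [hyx])]
    · rw [if_neg hyx, if_neg fun hh => hyx (lf_inj b hh)]
  rw [h4] at h3
  have h5 : (if y = x then (ω x : ℂ) else 0) = ((ω y * (if y = x then (1 : ℝ) else 0) : ℝ) : ℂ) := by
    split_ifs with hyx
    · rw [hyx, mul_one]
    · rw [mul_zero, Complex.ofReal_zero]
  rw [h5]
  unfold FT eT
  rw [← Complex.ofReal_add, ← Complex.ofReal_add]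
  congr 1
  linear_combination (-ω y) * h3

/-- a combination of the truncated Green functions on the lattice -/
def GG (V : Site d → ℝ) (Λ : Finset (Site d)) (E κ : ℝ) (b : Site d) (r₀ : ℕ)
    (C' : Finset (Site d)) (D : Finset (Tor d M)) (v : D → ℂ) (z : Site d) : ℂ :=
  ∑ x : D, v x * (psr V Λ E κ b r₀ C' (lf b (x : Tor d M)) z : ℂ)

theorem lnt_gT {ω : Tor d M → ℝ} (hω : ∀ y, ω y ≠ 0) (D : Finset (Tor d M)) (v : D → ℂ)
    (y : Tor d M) :
    GG V Λ E κ b r₀ C' D v (lf b y) = (ω y : ℂ) * lnt D (gT ω V Λ E κ b r₀ C') v y := by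
  unfold GG lnt gT
  rw [Finset.mul_sum]
  refine Finset.sum_congr rfl fun x _ => ?_
  have h1 : (ω y : ℂ) ≠ 0 := Complex.ofReal_ne_zero.2 (hω y)
  push_cast
  field_simp

theorem lnt_FT (ω : Tor d M → ℝ) (D : Finset (Tor d M)) (v : D → ℂ) (y : Tor d M) :
    lnt D (FT ω V Λ E κ b r₀ C') v y = (ω y : ℂ) *
      lap (fun z => ((wt κ b r₀ (lf b y) / wt κ b r₀ z - 1 : ℝ) : ℂ) *
        GG V Λ E κ b r₀ C' D v z) (lf b y) := by
  have h1 : ∀ x : Site d, ((fr V Λ E κ b r₀ C' x (lf b y) : ℝ) : ℂ) =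
      -lap (fun z => ((wt κ b r₀ (lf b y) / wt κ b r₀ z - 1 : ℝ) : ℂ) *
        (psr V Λ E κ b r₀ C' x z : ℂ)) (lf b y) := by
    intro x
    unfold fr
    rw [Complex.ofReal_neg, ← lap_ofReal]
    congr 1
    unfold lap
    push_cast
    rfl
  unfold lnt FT
  simp only [Complex.ofReal_neg, Complex.ofReal_mul, h1]
  unfold lap GG
  simp only [mul_neg, neg_neg, Finset.mul_sum, neg_mul]
  rw [Finset.sum_comm]
  refine Finset.sum_congr rfl fun i _ => ?_
  rw [mul_add, Finset.mul_sum, Finset.mul_sum, ← Finset.sum_add_distrib]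
  refine Finset.sum_congr rfl fun x _ => ?_
  ring

theorem FT_norm [NeZero M] {R : ℕ} {ω : Tor d M → ℝ} (hM : 2 * R + 5 ≤ M)
    (hC' : C' ⊆ box b R) (hω1 : ∀ y, 0 < ω y) (hω2 : ∀ y, ω y ≤ 2) (hκ : 0 ≤ κ) (hκ1 : κ ≤ 1)
    (D : Finset (Tor d M)) (v : D → ℂ) :
    ∑ y, ‖lnt D (FT ω V Λ E κ b r₀ C') v y‖ ^ 2 ≤
      (16 * d * κ) ^ 2 * ∑ y, ‖lnt D (gT ω V Λ E κ b r₀ C') v y‖ ^ 2 := by
  obtain ⟨G, hG⟩ : ∃ G : Site d → ℂ, G = GG V Λ E κ b r₀ C' D v := ⟨_, rfl⟩
  have hω0 : ∀ y, ω y ≠ 0 := fun y => (hω1 y).ne'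
  have hsq : ∀ y : Tor d M, ω y ^ 2 ≤ 4 := by
    intro y
    have h1 := hω1 y
    have h2 := hω2 y
    nlinarith
  have hG0 : ∀ y, y ∉ C' → G y = 0 := by
    intro y hy
    rw [hG]
    unfold GG
    refine Finset.sum_eq_zero fun x _ => ?_
    simp only [psr, tg, if_neg hy, mul_zero, Complex.ofReal_zero]
  obtain ⟨B, hB1, hB2, hB3⟩ := sum_lf (M := M) b (fun y => ‖lap (fun z =>
    ((wt κ b r₀ y / wt κ b r₀ z - 1 : ℝ) : ℂ) * G z) y‖ ^ 2)
  obtain ⟨B', hB1', hB2', hB3'⟩ := sum_lf (M := M) b (fun y => ‖G y‖ ^ 2)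
  have h1 : ∑ y, ‖lnt D (FT ω V Λ E κ b r₀ C') v y‖ ^ 2 ≤
      4 * ∑ x : Tor d M, ‖lap (fun z =>
        ((wt κ b r₀ (lf b x) / wt κ b r₀ z - 1 : ℝ) : ℂ) * G z) (lf b x)‖ ^ 2 := by
    rw [Finset.mul_sum]
    refine Finset.sum_le_sum fun y _ => ?_
    rw [lnt_FT, norm_mul, mul_pow, Complex.norm_real, Real.norm_eq_abs, sq_abs, hG]
    exact mul_le_mul_of_nonneg_right (hsq y) (by positivity)
  have h2 := lap_norm_sq_le hκ B G hG0 (fun y z => ((wt κ b r₀ y / wt κ b r₀ z - 1 : ℝ) : ℂ)) (by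
    intro y i
    constructor
    · rw [Complex.norm_real, Real.norm_eq_abs]
      exact wt_ratio hκ hκ1 (sd_add_single_le y i)
    · rw [Complex.norm_real, Real.norm_eq_abs]
      exact wt_ratio hκ hκ1 (sd_sub_single_le y i))
  have h3 : ∑ z ∈ C', ‖G z‖ ^ 2 ≤ ∑ y : Tor d M, ‖G (lf b y)‖ ^ 2 := by
    rw [hB3']
    refine Finset.sum_le_sum_of_subset_of_nonneg ?_ fun _ _ _ => by positivity
    intro z hz
    have h4 := mem_box.1 (hC' hz)
    rw [← lf_ti hM (by omega : sd b z ≤ R + 2)]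
    exact hB1' _
  have h4 : ∑ y : Tor d M, ‖G (lf b y)‖ ^ 2 ≤
      4 * ∑ y, ‖lnt D (gT ω V Λ E κ b r₀ C') v y‖ ^ 2 := by
    rw [Finset.mul_sum]
    refine Finset.sum_le_sum fun y _ => ?_
    rw [hG, lnt_gT hω0, norm_mul, mul_pow, Complex.norm_real, Real.norm_eq_abs, sq_abs]
    exact mul_le_mul_of_nonneg_right (hsq y) (by positivity)
  have h5 : (0 : ℝ) ≤ (4 * d * κ) ^ 2 := by positivity
  rw [hB3] at h1
  have h6 := mul_le_mul_of_nonneg_left (le_trans h3 h4) h5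
  calc _ ≤ 4 * ((4 * d * κ) ^ 2 * (4 * ∑ y, ‖lnt D (gT ω V Λ E κ b r₀ C') v y‖ ^ 2)) := by
        linarith
    _ = _ := by ring

theorem eT_norm [NeZero M] {ω : Tor d M → ℝ} {Q : ℝ} (hω1 : ∀ y, 0 < ω y) (hω2 : ∀ y, ω y ≤ 2)
    (hC' : C' ⊆ box b (r₀ + m)) {x : Tor d M} (hx : sd b (lf b x) ≤ r₀ + m)
    (hQ : ∀ y ∈ box b (r₀ + m + 1), |er V Λ E κ b r₀ C' (lf b x) y| ≤ Q) :
    ∑ y, ‖eT ω V Λ E κ b r₀ C' x y‖ ^ 2 ≤ 4 * ((2 * ((r₀ + m + 1 : ℕ) : ℝ) + 1) ^ d * Q ^ 2) := by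
  obtain ⟨B, hB1, hB2, hB3⟩ := sum_lf (M := M) b (fun y => er V Λ E κ b r₀ C' (lf b x) y ^ 2)
  have h1 : ∑ y, ‖eT ω V Λ E κ b r₀ C' x y‖ ^ 2 ≤
      4 * ∑ y : Tor d M, er V Λ E κ b r₀ C' (lf b x) (lf b y) ^ 2 := by
    rw [Finset.mul_sum]
    refine Finset.sum_le_sum fun y _ => ?_
    unfold eT
    rw [Complex.norm_real, Real.norm_eq_abs, sq_abs, neg_sq, mul_pow]
    have h2 := hω1 y
    have h3 := hω2 y
    exact mul_le_mul_of_nonneg_right (by nlinarith) (by positivity)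
  refine le_trans h1 (mul_le_mul_of_nonneg_left ?_ (by norm_num))
  rw [hB3]
  have h2 : ∑ y ∈ B, er V Λ E κ b r₀ C' (lf b x) y ^ 2 ≤
      ∑ y ∈ box b (r₀ + m + 1), er V Λ E κ b r₀ C' (lf b x) y ^ 2 := by
    rw [← Finset.sum_filter_of_ne (s := B) (p := fun y => y ∈ box b (r₀ + m + 1))]
    · refine Finset.sum_le_sum_of_subset_of_nonneg ?_ fun _ _ _ => by positivity
      intro y hy
      exact (Finset.mem_filter.1 hy).2
    · intro y _ hy
      by_contra hcon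
      rw [mem_box, not_le] at hcon
      apply hy
      rw [er_out hC' hx hcon]
      norm_num
  refine le_trans h2 ?_
  have h3 : ∀ y ∈ box b (r₀ + m + 1), er V Λ E κ b r₀ C' (lf b x) y ^ 2 ≤ Q ^ 2 := by
    intro y hy
    have h4 := hQ y hy
    rw [← sq_abs]
    exact pow_le_pow_left₀ (abs_nonneg _) h4 2
  refine le_trans (Finset.sum_le_card_nsmul _ _ _ h3) ?_
  rw [nsmul_eq_mul, card_box]
  push_cast
  exact le_rfl

end Pool.Agent.LE.IR.H56
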