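import Pool.Agent.Helper56_LIR.CLE2

/-!
# CLE, part 3: the numbers, the system
-/

set_option autoImplicit false

open MeasureTheory ProbabilityTheory Function Filter

open scoped ENNReal BigOperators Topology NNReal

noncomputable section

namespace Pool.Agent.LE.IR.H56

open Pool.Agent.Anderson hiding box mem_box card_box
open Pool.Agent.Loc hiding nb
open Pool.Agent.Mob Pool.Agent.Helper54.Bal
  Pool.Agent.Helper96.EXP Pool.Agent.BED
open Pool.Agent.LE.MN Pool.Agent.LE.CL Pool.Agent.LE.CL.H48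

/-- the numbers of the cutoff -/
theorem num_eps2 {d R n : ℕ} {c η κ s a K : ℝ} (hR : 1 ≤ R) (hn : n ≤ R + 1)
    (hη : 0 < η) (hη1 : η ≤ 1) (hK : 0 ≤ K) (hηc : 16 * 5 ^ d * K ^ 2 * η ≤ c) {m : ℕ}
    (hs : (d + 1) * (Real.log (1 / η) + Real.log R) ≤ s)
    (hκ : a + (d + 1) * (Real.log (1 / η) + Real.log R) ≤ κ * m) :
    4 * ((2 * (n : ℝ) + 1) ^ d * (K * (Real.exp (-s) + Real.exp (a - κ * m))) ^ 2) ≤
      c * η ^ (d + 1) := by
  have hR1 : (1 : ℝ) ≤ R := by exact_mod_cast hR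
  have hR0 : (0 : ℝ) < R := by linarith
  have hM : Real.exp (-((d + 1) * (Real.log (1 / η) + Real.log R))) = (η / R) ^ (d + 1) := by
    have h1 : -((d + 1) * (Real.log (1 / η) + Real.log R)) =
        ((d + 1 : ℕ) : ℝ) * Real.log (η / R) := by
      rw [Real.log_div hη.ne' hR0.ne', one_div, Real.log_inv]
      push_cast
      ring
    rw [h1, ← Real.log_pow, Real.exp_log (by positivity)]
  obtain ⟨M, hMd⟩ : ∃ M, M = (η / R) ^ (d + 1) := ⟨_, rfl⟩
  rw [← hMd] at hM
  have hM0 : 0 < M := by rw [hMd]; positivity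
  have h1 : Real.exp (-s) ≤ M := by
    rw [← hM]
    exact Real.exp_le_exp.2 (by linarith)
  have h2 : Real.exp (a - κ * m) ≤ M := by
    rw [← hM]
    exact Real.exp_le_exp.2 (by linarith)
  have h3 : K * (Real.exp (-s) + Real.exp (a - κ * m)) ≤ K * (2 * M) :=
    mul_le_mul_of_nonneg_left (by linarith) hK
  have h4 : (2 * (n : ℝ) + 1) ^ d ≤ (5 * R : ℝ) ^ d := by
    have h5 : (n : ℝ) ≤ R + 1 := by exact_mod_cast hn
    exact pow_le_pow_left₀ (by positivity) (by linarith) d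
  have h5 : (K * (Real.exp (-s) + Real.exp (a - κ * m))) ^ 2 ≤ (K * (2 * M)) ^ 2 :=
    pow_le_pow_left₀ (by positivity) h3 2
  have h6 : (R : ℝ) ^ d * M ≤ η ^ (d + 1) := by
    have h7 : (R : ℝ) ^ d * M = η ^ (d + 1) / R := by
      rw [hMd, div_pow, pow_succ (R : ℝ)]
      field_simp
    rw [h7]
    exact div_le_self (by positivity) hR1
  have h7 : M ≤ η := by
    have h8 : η / R ≤ η := div_le_self hη.le hR1
    have h9 : 0 < η / R := by positivity
    calc M = (η / R) ^ (d + 1) := hMd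
      _ ≤ (η / R) ^ 1 := pow_le_pow_of_le_one h9.le (le_trans h8 hη1) (by omega)
      _ = η / R := pow_one _
      _ ≤ η := h8
  calc 4 * ((2 * (n : ℝ) + 1) ^ d * (K * (Real.exp (-s) + Real.exp (a - κ * m))) ^ 2) ≤
      4 * ((5 * R : ℝ) ^ d * (K * (2 * M)) ^ 2) :=
        mul_le_mul_of_nonneg_left (mul_le_mul h4 h5 (by positivity) (by positivity)) (by norm_num)
    _ = 16 * 5 ^ d * K ^ 2 * (((R : ℝ) ^ d * M) * M) := by
        rw [mul_pow]
        ring
    _ ≤ 16 * 5 ^ d * K ^ 2 * (η ^ (d + 1) * η) := by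
        refine mul_le_mul_of_nonneg_left ?_ (by positivity)
        exact mul_le_mul h6 h7 hM0.le (by positivity)
    _ = (16 * 5 ^ d * K ^ 2 * η) * η ^ (d + 1) := by ring
    _ ≤ c * η ^ (d + 1) := mul_le_mul_of_nonneg_right hηc (by positivity)

variable {d M : ℕ} [NeZero M]

/-! ### the landscape function -/

theorem om_near {ε z μ : ℝ} {V : Tor d M → ℝ} (hμ : 0 < μ) (hF : FlatE ε z μ V) (y : Tor d M) :
    |om z μ V y - 1| ≤ ε := by
  unfold om
  have h1 := hF.2.2 y
  have h2 : DD z V y / μ - 1 = (DD z V y - μ) / μ := by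
    field_simp
  rw [h2, abs_div, abs_of_pos hμ, div_le_iff₀ hμ]
  exact h1

theorem om_eq {ε z μ : ℝ} {V : Tor d M → ℝ} (hF : FlatE ε z μ V) (y : Tor d M) :
    (z - V y) * om z μ V y - ∑ i : Fin d, (om z μ V (y + ev i) + om z μ V (y - ev i)) = 1 / μ := by
  have h1 := congrFun (AM_DD hF.2.1) y
  rw [AM_mulVec] at h1
  unfold om
  have h3 : ∑ i : Fin d, (DD z V (y + ev i) / μ + DD z V (y - ev i) / μ) =
      (∑ i : Fin d, (DD z V (y + ev i) + DD z V (y - ev i))) / μ := by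
    rw [Finset.sum_div]
    refine Finset.sum_congr rfl fun i _ => ?_
    rw [add_div]
  rw [h3, ← mul_div_assoc, ← sub_div, h1]
  rfl

theorem V_le {ε z μ : ℝ} {V : Tor d M → ℝ} (hF : FlatE ε z μ V) (y : Tor d M) : V y ≤ z := by
  have h1 := congrFun (AM_DD hF.2.1) y
  rw [AM_mulVec] at h1
  have h2 : 0 ≤ ∑ i : Fin d, (DD z V (y + ev i) + DD z V (y - ev i)) :=
    Finset.sum_nonneg fun i _ =>
      add_nonneg (DD_pos hF.2.1 _).le (DD_pos hF.2.1 _).le
  have h3 : (1 : Tor d M → ℝ) y = 1 := rfl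
  rw [h3] at h1
  have h4 := DD_pos hF.2.1 y
  by_contra hcon
  rw [not_le] at hcon
  nlinarith

/-! ### the sets -/

/-- the image of a set of sites in the torus -/
def im (M : ℕ) (b : Site d) (D : Finset (Site d)) : Finset (Tor d M) := by
  classical
  exact D.image (ti M b)

theorem mem_im {b : Site d} {R : ℕ} (hM : 2 * R + 5 ≤ M) {D : Finset (Site d)}
    (hD : D ⊆ box b R) {x : Tor d M} : x ∈ im M b D ↔ lf b x ∈ D := by
  classical
  unfold im
  rw [Finset.mem_image]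
  constructor
  · rintro ⟨y, hy, rfl⟩
    have h1 := mem_box.1 (hD hy)
    rw [lf_ti hM (by omega : sd b y ≤ R + 2)]
    exact hy
  · intro h
    exact ⟨_, h, ti_lf b x⟩

theorem card_im {b : Site d} {R : ℕ} (hM : 2 * R + 5 ≤ M) {D : Finset (Site d)}
    (hD : D ⊆ box b R) : (im M b D).card = D.card := by
  classical
  unfold im
  refine Finset.card_image_of_injOn ?_
  intro x hx y hy hxy
  have h1 := mem_box.1 (hD hx)
  have h2 := mem_box.1 (hD hy)
  have h3 := congrArg (lf b) hxy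
  rwa [lf_ti hM (by omega : sd b x ≤ R + 2), lf_ti hM (by omega : sd b y ≤ R + 2)] at h3

/-! ### test multipliers -/

theorem tst_mono {A A' D₀ l T Kq : ℝ} {Rb : ℕ} {q : Tor d M → ℝ} (hA : 1 ≤ A) (hAA : A ≤ A')
    (hD : 0 ≤ D₀) (hT : 1 ≤ T) (h : TstT A D₀ l T Kq Rb q) : TstT A' D₀ l T Kq Rb q := by
  have hT0 : 0 ≤ T := by linarith
  have hlog : 0 ≤ Real.log T := Real.log_nonneg hT
  refine ⟨h.hsupp, fun p => ?_, ?_, ?_, ?_, ?_, ?_, h.hker⟩
  · exact le_trans (h.hsup p) (mul_le_mul_of_nonneg_right hAA hT0)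
  · exact le_trans (div_le_div_of_nonneg_left hD (by linarith) hAA) h.hmain
  · exact le_trans h.hL1 (mul_le_mul_of_nonneg_right hAA hD)
  · refine le_trans h.hL2 ?_
    exact mul_le_mul_of_nonneg_right (mul_le_mul_of_nonneg_right hAA hT0) hD
  · exact le_trans h.hX2 (mul_le_mul_of_nonneg_right hAA hD)
  · refine le_trans h.hX1 ?_
    refine div_le_div_of_nonneg_right ?_ hT0
    exact mul_le_mul_of_nonneg_right (mul_le_mul_of_nonneg_right hAA hD) (by linarith)

/-- the growth function -/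
theorem growth_ge {d : ℕ} (hd : 3 ≤ d) {n : ℕ} (hn : 1 ≤ n) :
    (1 / (n : ℝ)) ^ (((d : ℝ) - 4) / 2) ≤ growth d n := by
  have hn1 : (1 : ℝ) ≤ n := by exact_mod_cast hn
  have hn0 : (0 : ℝ) < n := by linarith
  unfold growth
  split_ifs with h3 h4
  · rw [h3, Real.sqrt_eq_rpow, one_div, Real.inv_rpow hn0.le, ← Real.rpow_neg hn0.le]
    refine le_of_eq ?_
    congr 1
    push_cast
    norm_num
  · have h5 : ((d : ℝ) - 4) / 2 = 0 := by
      rw [h4]
      push_cast
      norm_num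
    rw [h5, Real.rpow_zero]
    have := Real.log_nonneg hn1
    linarith
  · refine Real.rpow_le_one (by positivity) ?_ ?_
    · rw [div_le_one hn0]
      exact hn1
    · have h5 : 5 ≤ d := by omega
      have h6 : (5 : ℝ) ≤ d := by exact_mod_cast h5
      linarith

theorem growth_nonneg {d : ℕ} {n : ℕ} (hn : 1 ≤ n) : 0 ≤ growth d n := by
  have hn1 : (1 : ℝ) ≤ n := by exact_mod_cast hn
  have := Real.log_nonneg hn1
  unfold growth
  split_ifs
  · exact Real.sqrt_nonneg _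
  · linarith
  · norm_num

end Pool.Agent.LE.IR.H56
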