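import Pool.Agent.LE.StmtsIF
import Pool.Agent.Helper56_LIR.CLE4

/-!
# CLF, part 1: the growing sets
-/

set_option autoImplicit false

open MeasureTheory ProbabilityTheory Function Filter

open scoped ENNReal BigOperators Topology NNReal

noncomputable section

namespace Pool.Agent.LE.IR.H56

open Pool.Agent.Anderson hiding box mem_box card_box
open Pool.Agent.Loc hiding nb
open Pool.Agent.Mob Pool.Agent.Helper54.Bal
  Pool.Agent.Helper96.EXP Pool.Agent.BED
open Pool.Agent.LE.MN Pool.Agent.LE.CL Pool.Agent.LE.CL.H48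

variable {d : ℕ} {V : Site d → ℝ} {Λ : Finset (Site d)} {E s : ℝ} {b : Site d} {R₁ r₀ R J : ℕ}

theorem natAbs_le_sd (x y : Site d) (i : Fin d) : (x i - y i).natAbs ≤ sd x y :=
  Finset.le_sup (f := fun i => (x i - y i).natAbs) (Finset.mem_univ i)

theorem sd_le_of {x y : Site d} {r : ℕ} (h : ∀ i, (x i - y i).natAbs ≤ r) : sd x y ≤ r :=
  Finset.sup_le fun i _ => h i

/-- steps to neighbours are links -/
theorem path (hnb : ∀ x ∈ box b R, ∀ i : Fin d,
    Real.exp (-s) ≤ |gr V Λ E x (x + Pi.single i 1)| ∧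
      Real.exp (-s) ≤ |gr V Λ E x (x - Pi.single i 1)|) (n : ℕ) :
    ∀ (k : ℕ) (x y : Site d), x ∈ rch V Λ E s b R k → x ∈ box b R → y ∈ box b R →
      ∑ i, (x i - y i).natAbs ≤ n → y ∈ rch V Λ E s b R (k + n) := by
  induction n with
  | zero =>
    intro k x y hx _ _ hs
    have h1 : x = y := by
      funext i
      have h2 : (x i - y i).natAbs = 0 := by
        have := Finset.sum_eq_zero_iff.1 (Nat.le_zero.1 hs) i (Finset.mem_univ i)
        exact this
      omega
    rw [← h1]
    exact hx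
  | succ n ih =>
    intro k x y hx hxb hyb hs
    by_cases hxy : x = y
    · rw [← hxy]
      exact rch_mono (Nat.le_add_right _ _) hx
    obtain ⟨i, hi⟩ : ∃ i, x i ≠ y i := Function.ne_iff.1 hxy
    have hx1 : ∀ j, (b j - x j).natAbs ≤ R := fun j =>
      (natAbs_le_sd b x j).trans (mem_box.1 hxb)
    have hy1 : ∀ j, (b j - y j).natAbs ≤ R := fun j =>
      (natAbs_le_sd b y j).trans (mem_box.1 hyb)
    have key : ∀ x' : Site d, (∀ j, j ≠ i → x' j = x j) → (x' i - y i).natAbs < (x i - y i).natAbs →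
        (b i - x' i).natAbs ≤ R → Real.exp (-s) ≤ |gr V Λ E x x'| →
        y ∈ rch V Λ E s b R (k + (n + 1)) := by
      intro x' h1 h2 h3 h4
      have h5 : x' ∈ box b R := by
        rw [mem_box]
        refine sd_le_of fun j => ?_
        by_cases hj : j = i
        · rw [hj]
          exact h3
        · rw [h1 j hj]
          exact hx1 j
      have h6 : x' ∈ rch V Λ E s b R (k + 1) := by
        rw [rch_succ, mem_clu]
        exact Or.inr ⟨h5, x, hx, h4⟩
      have h7 : ∑ j, (x' j - y j).natAbs < ∑ j, (x j - y j).natAbs := by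
        refine Finset.sum_lt_sum (fun j _ => ?_) ⟨i, Finset.mem_univ i, h2⟩
        by_cases hj : j = i
        · rw [hj]
          exact h2.le
        · rw [h1 j hj]
      have h8 := ih (k + 1) x' y h6 h5 hyb (by omega)
      have h9 : k + 1 + n = k + (n + 1) := by ring
      rwa [h9] at h8
    obtain ⟨h1, h2⟩ := hnb x hxb i
    rcases lt_or_gt_of_ne hi with hlt | hlt
    · have hxi : (x + Pi.single i 1 : Site d) i = x i + 1 := by
        rw [Pi.add_apply, Pi.single_eq_same]
      refine key (x + Pi.single i 1) (fun j hj => ?_) ?_ ?_ h1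
      · rw [Pi.add_apply, Pi.single_eq_of_ne hj, add_zero]
      · rw [hxi]
        omega
      · rw [hxi]
        have a1 := hx1 i
        have a2 := hy1 i
        omega
    · have hxi : (x - Pi.single i 1 : Site d) i = x i - 1 := by
        rw [Pi.sub_apply, Pi.single_eq_same]
      refine key (x - Pi.single i 1) (fun j hj => ?_) ?_ ?_ h2
      · rw [Pi.sub_apply, Pi.single_eq_of_ne hj, sub_zero]
      · rw [hxi]
        omega
      · rw [hxi]
        have a1 := hx1 i
        have a2 := hy1 i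
        omega

theorem sum_le_sd (x y : Site d) : ∑ i, (x i - y i).natAbs ≤ d * sd x y := by
  refine (Finset.sum_le_card_nsmul _ _ _ fun i _ => natAbs_le_sd x y i).trans ?_
  rw [Finset.card_univ, Fintype.card_fin, smul_eq_mul]

/-- the growing sets -/
def Sf (V : Site d → ℝ) (Λ : Finset (Site d)) (E s : ℝ) (b : Site d) (R₁ r₀ : ℕ) :
    ℕ → Finset (Site d)
  | 0 => {b}
  | j + 1 => by
    classical
    exact clu V Λ E s (Sf V Λ E s b R₁ r₀ j) (box b (j * R₁ + R₁)) ∪
      (box b (j * R₁ + R₁)).filter fun y => ∃ x ∈ Sf V Λ E s b R₁ r₀ j, sd x y ≤ r₀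

theorem mem_Sf_succ {j : ℕ} {y : Site d} : y ∈ Sf V Λ E s b R₁ r₀ (j + 1) ↔
    y ∈ clu V Λ E s (Sf V Λ E s b R₁ r₀ j) (box b (j * R₁ + R₁)) ∨
      (y ∈ box b (j * R₁ + R₁) ∧ ∃ x ∈ Sf V Λ E s b R₁ r₀ j, sd x y ≤ r₀) := by
  classical
  rw [Sf, Finset.mem_union, Finset.mem_filter]

theorem Sf_box (j : ℕ) : Sf V Λ E s b R₁ r₀ j ⊆ box b (j * R₁) := by
  induction j with
  | zero =>
    intro y hy
    rw [Sf, Finset.mem_singleton] at hy
    rw [hy, mem_box, sd_self]
    exact Nat.zero_le _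
  | succ j ih =>
    intro y hy
    rw [mem_Sf_succ] at hy
    rw [Nat.succ_mul]
    rcases hy with hy | hy
    · rw [mem_clu] at hy
      rcases hy with hy | hy
      · exact box_mono b (Nat.le_add_right _ _) (ih hy)
      · exact hy.1
    · exact hy.1

theorem Sf_sub (j : ℕ) : Sf V Λ E s b R₁ r₀ j ⊆ Sf V Λ E s b R₁ r₀ (j + 1) := by
  intro y hy
  rw [mem_Sf_succ, mem_clu]
  exact Or.inl (Or.inl hy)

theorem Sf_self (j : ℕ) : b ∈ Sf V Λ E s b R₁ r₀ j := by
  induction j with
  | zero => rw [Sf, Finset.mem_singleton]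
  | succ j ih => exact Sf_sub j ih

theorem Sf_rch (hnb : ∀ x ∈ box b R, ∀ i : Fin d,
    Real.exp (-s) ≤ |gr V Λ E x (x + Pi.single i 1)| ∧
      Real.exp (-s) ≤ |gr V Λ E x (x - Pi.single i 1)|) (j : ℕ) (h : j * R₁ ≤ R) :
    Sf V Λ E s b R₁ r₀ j ⊆ rch V Λ E s b R (j * (d * r₀ + 1)) := by
  induction j with
  | zero =>
    intro y hy
    rw [Sf] at hy
    rw [Nat.zero_mul, rch_zero]
    exact hy
  | succ j ih =>
    rw [Nat.succ_mul] at h
    have ih' := ih (by omega)
    intro y hy
    rw [mem_Sf_succ] at hy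
    rw [Nat.succ_mul]
    rcases hy with hy | ⟨hyb, x, hx, hxy⟩
    · have h1 : y ∈ rch V Λ E s b R (j * (d * r₀ + 1) + 1) := by
        rw [rch_succ]
        exact clu_mono ih' (box_mono b h) hy
      exact rch_mono (by omega) h1
    · have h1 := path hnb (d * r₀) (j * (d * r₀ + 1)) x y (ih' hx)
        (box_mono b (by omega) (Sf_box j hx)) (box_mono b h hyb)
        ((sum_le_sd x y).trans (Nat.mul_le_mul_left d hxy))
      exact rch_mono (by omega) h1

theorem pigeonf (hJ : (2 * R + 1) ^ d < 2 ^ J) (hR : J * R₁ ≤ R) :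
    ∃ j < J, (Sf V Λ E s b R₁ r₀ (j + 1)).card ≤ 2 * (Sf V Λ E s b R₁ r₀ j).card := by
  by_contra hcon
  push Not at hcon
  have h1 : ∀ j ≤ J, 2 ^ j ≤ (Sf V Λ E s b R₁ r₀ j).card := by
    intro j
    induction j with
    | zero =>
      intro _
      rw [Sf, Finset.card_singleton, pow_zero]
    | succ j ih =>
      intro hj
      have h2 := hcon j (by omega)
      have h3 := ih (by omega)
      rw [pow_succ]
      omega
  have h2 := h1 J le_rfl
  have h3 : (Sf V Λ E s b R₁ r₀ J).card ≤ (box b R).card :=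
    Finset.card_le_card fun y hy => box_mono b hR (Sf_box J hy)
  rw [card_box] at h3
  omega

/-! ### the distance on the torus -/

variable {M : ℕ} [NeZero M]

theorem sd_of_tds {x y : Tor d M} (hx : sd b (lf b x) ≤ R) (hxy : tds x y ≤ r₀)
    (hM : 2 * (R + r₀) + 5 ≤ M) : sd (lf b x) (lf b y) ≤ r₀ := by
  obtain ⟨w, hw⟩ : ∃ w : Site d, w = fun i => lf b x i + (y i - x i).valMinAbs := ⟨_, rfl⟩
  have hdel : ∀ i, (y i - x i).valMinAbs.natAbs ≤ r₀ := fun i =>
    (Finset.le_sup (f := fun i => (y i - x i).valMinAbs.natAbs) (Finset.mem_univ i)).trans hxy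
  have h1 : ti M b w = y := by
    funext i
    change (((w i - b i : ℤ)) : ZMod M) = y i
    rw [hw]
    change (((b i + rep x i + (y i - x i).valMinAbs - b i : ℤ)) : ZMod M) = y i
    have h2 : b i + rep x i + (y i - x i).valMinAbs - b i = rep x i + (y i - x i).valMinAbs := by
      ring
    rw [h2, Int.cast_add, ZMod.coe_valMinAbs]
    have h3 : ((rep x i : ℤ) : ZMod M) = x i := ZMod.coe_valMinAbs _
    rw [h3]
    ring
  have h2 : sd (lf b x) w ≤ r₀ := by
    refine sd_le_of fun i => ?_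
    rw [hw]
    change (lf b x i - (lf b x i + (y i - x i).valMinAbs)).natAbs ≤ r₀
    have h3 : lf b x i - (lf b x i + (y i - x i).valMinAbs) = -(y i - x i).valMinAbs := by ring
    rw [h3, Int.natAbs_neg]
    exact hdel i
  have h3 : sd b w ≤ R + r₀ + 2 := by
    have := sd_triangle b (lf b x) w
    omega
  have h4 := lf_ti (M := M) (R := R + r₀) (b := b) hM h3
  rw [h1] at h4
  rw [h4]
  exact h2

end Pool.Agent.LE.IR.H56
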