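import Pool.Agent.Helper56_LIR.CLF1

/-!
# CLF, part 2: the errors on the torus
-/

set_option autoImplicit false

open MeasureTheory ProbabilityTheory Function Filter

open scoped ENNReal BigOperators Topology NNReal

noncomputable section

namespace Pool.Agent.LE.IR.H56

open Pool.Agent.Anderson hiding box mem_box card_box
open Pool.Agent.Loc hiding nb
open Pool.Agent.Mob Pool.Agent.Helper54.Bal
  Pool.Agent.Helper96.EXP Pool.Agent.BED
open Pool.Agent.LE.MN Pool.Agent.LE.CL Pool.Agent.LE.CL.H48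

variable {d M : ℕ}

variable {V : Site d → ℝ} {Λ : Finset (Site d)} {E κ : ℝ} {b : Site d} {r₀ m : ℕ}
  {C C' : Finset (Site d)}

/-- the error of the truncation is small -/
theorem er_lef {s a K : ℝ} (hκ : 0 ≤ κ) (hdet : (RM V Λ E).det ≠ 0)
    (hΛ : box b (r₀ + m + 1) ⊆ Λ) (hC : C ⊆ box b r₀) (hm : 1 ≤ m) (hK0 : 0 ≤ K)
    (hC'1 : clu V Λ E s C (box b (r₀ + m)) ⊆ C') (hC'b : C' ⊆ box b (r₀ + m))
    (hV : ∀ x ∈ box b (r₀ + m + 1), |V x - E| ≤ K)
    (hG : ∀ x ∈ box b (r₀ + m), ∀ y ∈ box b (r₀ + m), |gr V Λ E x y| ≤ Real.exp a)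
    {x y : Site d} (hx : x ∈ C) (hy : y ∈ box b (r₀ + m + 1)) :
    |er V Λ E κ b r₀ C' x y| ≤ (2 * d + K) * (Real.exp (-s) + Real.exp (a - κ * m)) := by
  have hxb : sd b x ≤ r₀ := mem_box.1 (hC hx)
  have hxb' : x ∈ box b (r₀ + m) := box_mono b (Nat.le_add_right _ _) (hC hx)
  have hyV := hV y hy
  have hd : (0 : ℝ) ≤ d := Nat.cast_nonneg d
  rcases Nat.lt_or_ge (sd b y) (r₀ + m) with h | h
  · -- inside
    have hout : ∀ z : Site d, sd b z ≤ r₀ + m →
        |gr V Λ E x z - tg V Λ E C' x z| ≤ Real.exp (-s) := by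
      intro z hz
      unfold tg
      split_ifs with h1
      · rw [sub_self, abs_zero]
        exact (Real.exp_pos _).le
      · rw [sub_zero]
        by_contra hcon
        rw [not_le] at hcon
        apply h1
        apply hC'1
        rw [mem_clu]
        exact Or.inr ⟨mem_box.2 hz, x, hx, hcon.le⟩
    have hgr := green_gen hdet (hΛ (box_mono b (Nat.le_succ _) hxb')) (hΛ hy)
    have h2 : nb (tg V Λ E C' x) y = nb (gr V Λ E x) y -
        nb (fun z => gr V Λ E x z - tg V Λ E C' x z) y := by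
      unfold nb
      rw [← Finset.sum_sub_distrib]
      refine Finset.sum_congr rfl fun i _ => ?_
      ring
    have h3 : er V Λ E κ b r₀ C' x y = -(wt κ b r₀ y *
        (nb (fun z => gr V Λ E x z - tg V Λ E C' x z) y +
          (V y - E) * (gr V Λ E x y - tg V Λ E C' x y))) := by
      unfold er
      rw [h2]
      have h4 : wt κ b r₀ y * (if y = x then (1 : ℝ) else 0) = if y = x then 1 else 0 := by
        split_ifs with h5
        · rw [h5, wt_eq_one hxb, mul_one]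
        · rw [mul_zero]
      have h5 : nb (gr V Λ E x) y = -(if y = x then 1 else 0) - (V y - E) * gr V Λ E x y := by
        linarith
      rw [h5]
      linear_combination -h4
    rw [h3, abs_neg, abs_mul, abs_of_pos (wt_pos _ _ _ _)]
    have h6 : |nb (fun z => gr V Λ E x z - tg V Λ E C' x z) y| ≤ 2 * d * Real.exp (-s) := by
      refine nb_abs_le fun i => ?_
      have h7 := sd_step b y i
      exact ⟨hout _ (by omega), hout _ (by omega)⟩
    have h8 : |(V y - E) * (gr V Λ E x y - tg V Λ E C' x y)| ≤ K * Real.exp (-s) := by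
      rw [abs_mul]
      exact mul_le_mul hyV (hout y (by omega)) (abs_nonneg _) hK0
    have h9 : |nb (fun z => gr V Λ E x z - tg V Λ E C' x z) y +
        (V y - E) * (gr V Λ E x y - tg V Λ E C' x y)| ≤ (2 * d + K) * Real.exp (-s) := by
      refine le_trans (abs_add_le _ _) ?_
      linarith
    have h10 : 0 ≤ (2 * d + K) * Real.exp (a - κ * m) := by positivity
    calc wt κ b r₀ y * |nb (fun z => gr V Λ E x z - tg V Λ E C' x z) y +
          (V y - E) * (gr V Λ E x y - tg V Λ E C' x y)| ≤ 1 * ((2 * d + K) * Real.exp (-s)) :=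
          mul_le_mul (wt_le_one hκ _ _ _) h9 (abs_nonneg _) zero_le_one
      _ ≤ (2 * d + K) * (Real.exp (-s) + Real.exp (a - κ * m)) := by linarith
  · -- near the boundary
    have htg : ∀ z : Site d, |tg V Λ E C' x z| ≤ Real.exp a := by
      intro z
      unfold tg
      split_ifs with h1
      · exact hG x hxb' z (hC'b h1)
      · rw [abs_zero]
        exact (Real.exp_pos _).le
    have hyx : y ≠ x := by
      rintro rfl
      omega
    unfold er
    rw [if_neg hyx, add_zero, abs_mul, abs_of_pos (wt_pos _ _ _ _)]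
    have h6 : |nb (tg V Λ E C' x) y| ≤ 2 * d * Real.exp a :=
      nb_abs_le fun i => ⟨htg _, htg _⟩
    have h8 : |(V y - E) * tg V Λ E C' x y| ≤ K * Real.exp a := by
      rw [abs_mul]
      exact mul_le_mul hyV (htg y) (abs_nonneg _) hK0
    have h9 : |nb (tg V Λ E C' x) y + (V y - E) * tg V Λ E C' x y| ≤
        (2 * d + K) * Real.exp a := by
      refine le_trans (abs_add_le _ _) ?_
      linarith
    have h10 : 0 ≤ (2 * d + K) * Real.exp (-s) := by positivity
    have h11 : Real.exp (-(κ * m)) * Real.exp a = Real.exp (a - κ * m) := by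
      rw [← Real.exp_add]
      congr 1
      ring
    calc wt κ b r₀ y * |nb (tg V Λ E C' x) y + (V y - E) * tg V Λ E C' x y| ≤
          Real.exp (-(κ * m)) * ((2 * d + K) * Real.exp a) :=
          mul_le_mul (wt_le hκ h) h9 (abs_nonneg _) (Real.exp_pos _).le
      _ = (2 * d + K) * Real.exp (a - κ * m) := by rw [← h11]; ring
      _ ≤ (2 * d + K) * (Real.exp (-s) + Real.exp (a - κ * m)) := by linarith

/-- the weight is constant near the points with a small distance -/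
theorem wt_near {y z : Site d} (h : sd y z ≤ 1) (hz : sd b z < r₀) :
    wt κ b r₀ y / wt κ b r₀ z - 1 = 0 := by
  have h1 := sd_triangle b z y
  rw [sd_comm z y] at h1
  rw [wt_eq_one (by omega : sd b y ≤ r₀), wt_eq_one hz.le, div_one, sub_self]

theorem FT_normf [NeZero M] {R : ℕ} {ω : Tor d M → ℝ} (hM : 2 * R + 5 ≤ M)
    (hC' : C' ⊆ box b R) (hω1 : ∀ y, 0 < ω y) (hω2 : ∀ y, ω y ≤ 2) (hκ : 0 ≤ κ) (hκ1 : κ ≤ 1)
    (D : Finset (Tor d M)) (r : Tor d M → Tor d M → ℂ)
    (hr : ∀ x ∈ D, ∀ y, r₀ ≤ sd b (lf b y) → r x y = gT ω V Λ E κ b r₀ C' x y) (v : D → ℂ) :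
    ∑ y, ‖lnt D (FT ω V Λ E κ b r₀ C') v y‖ ^ 2 ≤
      (16 * d * κ) ^ 2 * ∑ y, ‖lnt D r v y‖ ^ 2 := by
  classical
  obtain ⟨G, hG⟩ : ∃ G : Site d → ℂ, G = GG V Λ E κ b r₀ C' D v := ⟨_, rfl⟩
  obtain ⟨G', hG'⟩ : ∃ G' : Site d → ℂ, G' = fun z => if r₀ ≤ sd b z then G z else 0 := ⟨_, rfl⟩
  have hω0 : ∀ y, ω y ≠ 0 := fun y => (hω1 y).ne'
  have hsq : ∀ y : Tor d M, ω y ^ 2 ≤ 4 := by
    intro y
    have h1 := hω1 y
    have h2 := hω2 y
    calc ω y ^ 2 ≤ 2 ^ 2 := pow_le_pow_left₀ h1.le h2 2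
      _ = 4 := by norm_num
  have hG0 : ∀ y, y ∉ C' → G' y = 0 := by
    intro y hy
    rw [hG']
    change (if r₀ ≤ sd b y then G y else 0) = 0
    split_ifs with h
    · rw [hG]
      unfold GG
      refine Finset.sum_eq_zero fun x _ => ?_
      simp only [psr, tg, if_neg hy, mul_zero, Complex.ofReal_zero]
    · rfl
  have hlap : ∀ y : Site d, lap (fun z => ((wt κ b r₀ y / wt κ b r₀ z - 1 : ℝ) : ℂ) * G z) y =
      lap (fun z => ((wt κ b r₀ y / wt κ b r₀ z - 1 : ℝ) : ℂ) * G' z) y := by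
    intro y
    have h1 : ∀ z : Site d, sd y z ≤ 1 → ((wt κ b r₀ y / wt κ b r₀ z - 1 : ℝ) : ℂ) * G z =
        ((wt κ b r₀ y / wt κ b r₀ z - 1 : ℝ) : ℂ) * G' z := by
      intro z hz
      rw [hG']
      change _ = ((wt κ b r₀ y / wt κ b r₀ z - 1 : ℝ) : ℂ) * (if r₀ ≤ sd b z then G z else 0)
      split_ifs with h
      · rfl
      · rw [wt_near hz (not_le.1 h), Complex.ofReal_zero, zero_mul, zero_mul]
    unfold lap
    refine Finset.sum_congr rfl fun i _ => ?_
    exact congrArg₂ (· + ·) (h1 _ (sd_add_single_le y i)) (h1 _ (sd_sub_single_le y i))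
  obtain ⟨B, hB1, hB2, hB3⟩ := sum_lf (M := M) b (fun y => ‖lap (fun z =>
    ((wt κ b r₀ y / wt κ b r₀ z - 1 : ℝ) : ℂ) * G' z) y‖ ^ 2)
  obtain ⟨B', hB1', hB2', hB3'⟩ := sum_lf (M := M) b (fun y => ‖G' y‖ ^ 2)
  have h1 : ∑ y, ‖lnt D (FT ω V Λ E κ b r₀ C') v y‖ ^ 2 ≤
      4 * ∑ x : Tor d M, ‖lap (fun z =>
        ((wt κ b r₀ (lf b x) / wt κ b r₀ z - 1 : ℝ) : ℂ) * G' z) (lf b x)‖ ^ 2 := by
    rw [Finset.mul_sum]
    refine Finset.sum_le_sum fun y _ => ?_
    rw [lnt_FT, norm_mul, mul_pow, Complex.norm_real, Real.norm_eq_abs, sq_abs, ← hlap, hG]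
    exact mul_le_mul_of_nonneg_right (hsq y) (by positivity)
  have h2 := lap_norm_sq_le hκ B G' hG0 (fun y z => ((wt κ b r₀ y / wt κ b r₀ z - 1 : ℝ) : ℂ)) (by
    intro y i
    constructor
    · rw [Complex.norm_real, Real.norm_eq_abs]
      exact wt_ratio hκ hκ1 (sd_add_single_le y i)
    · rw [Complex.norm_real, Real.norm_eq_abs]
      exact wt_ratio hκ hκ1 (sd_sub_single_le y i))
  have h3 : ∑ z ∈ C', ‖G' z‖ ^ 2 ≤ ∑ y : Tor d M, ‖G' (lf b y)‖ ^ 2 := by
    rw [hB3']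
    refine Finset.sum_le_sum_of_subset_of_nonneg ?_ fun _ _ _ => by positivity
    intro z hz
    have h4 := mem_box.1 (hC' hz)
    rw [← lf_ti hM (by omega : sd b z ≤ R + 2)]
    exact hB1' _
  have h4 : ∑ y : Tor d M, ‖G' (lf b y)‖ ^ 2 ≤
      4 * ∑ y, ‖lnt D r v y‖ ^ 2 := by
    rw [Finset.mul_sum]
    refine Finset.sum_le_sum fun y _ => ?_
    rw [hG']
    change ‖(if r₀ ≤ sd b (lf b y) then G (lf b y) else 0)‖ ^ 2 ≤ _
    split_ifs with h
    · have h5 : lnt D r v y = lnt D (gT ω V Λ E κ b r₀ C') v y := by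
        unfold lnt
        refine Finset.sum_congr rfl fun x _ => ?_
        rw [hr x x.2 y h]
      rw [h5, hG, lnt_gT hω0, norm_mul, mul_pow, Complex.norm_real, Real.norm_eq_abs, sq_abs]
      exact mul_le_mul_of_nonneg_right (hsq y) (by positivity)
    · rw [norm_zero, zero_pow two_ne_zero]
      exact mul_nonneg (by norm_num) (sq_nonneg _)
  have h5 : (0 : ℝ) ≤ (4 * d * κ) ^ 2 := by positivity
  rw [hB3] at h1
  have h6 := mul_le_mul_of_nonneg_left (le_trans h3 h4) h5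
  calc _ ≤ 4 * ((4 * d * κ) ^ 2 * (4 * ∑ y, ‖lnt D r v y‖ ^ 2)) := by
        linarith
    _ = _ := by ring

end Pool.Agent.LE.IR.H56
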