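import Pool.Agent.LE.StmtsIF
import Pool.Agent.Helper56_LIR.CLE3
import Pool.Agent.Helper76_LIR.FMO
import Pool.Agent.Helper95_LIR.CVB

/-!
# CLF, part 3: the tail of the local part
-/

set_option autoImplicit false

open MeasureTheory ProbabilityTheory Function Filter

open scoped ENNReal BigOperators Topology NNReal

noncomputable section

namespace Pool.Agent.LE.IR.H56

open Pool.Agent.Anderson hiding box mem_box card_box
open Pool.Agent.Loc hiding nb
open Pool.Agent.Mob Pool.Agent.Helper54.Bal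
  Pool.Agent.Helper96.EXP Pool.Agent.BED Pool.Agent.BED.H32
open Pool.Agent.LE.MN Pool.Agent.LE.CL

variable {d M : ℕ} [NeZero M]

theorem T0_bd (cvb : CvbStmt) (hd : 1 ≤ d) {z μ ε : ℝ} {V : Tor d M → ℝ} (hz : z ≤ 2 * d + 1)
    (hF : FlatE ε z μ V) {n j : ℕ} (hn : 1 ≤ n) (hj : j ≤ n) (x y : Tor d M) :
    |(TM z V ^ j) x y| ≤ 2 * Real.exp (-((tds x y : ℝ) ^ 2 / (2 * n))) := by
  obtain ⟨hV, hA, hD⟩ := hF
  rcases Nat.eq_zero_or_pos j with rfl | hj0
  · rw [pow_zero]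
    by_cases h : x = y
    · subst h
      rw [H76.tds_self]
      simp
    · rw [Matrix.one_apply_ne h, abs_zero]
      positivity
  · have hcontr : ∀ f : Tor d M → ℝ, ∑ x, (Matrix.mulVec (TM z V) f x) ^ 2 ≤ ∑ x, f x ^ 2 :=
      fun f => (TM_sq_le hd hz hV hA f).trans (TM_form_le hd hA f)
    refine (cvb d M (TM z V) (TM_symm z V) hcontr (H76.TM_supp z V) j x y).trans ?_
    have hj1 : (0 : ℝ) < j := by exact_mod_cast hj0
    have hjn : (j : ℝ) ≤ n := by exact_mod_cast hj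
    have h4 : (tds x y : ℝ) ^ 2 / (2 * n) ≤ (tds x y : ℝ) ^ 2 / (2 * j) := by
      apply div_le_div_of_nonneg_left (by positivity) (by positivity)
      linarith
    have h5 : Real.exp (-((tds x y : ℝ) ^ 2 / (2 * j))) ≤
        Real.exp (-((tds x y : ℝ) ^ 2 / (2 * n))) := by
      apply Real.exp_le_exp.2
      linarith
    linarith

theorem TM_pow_lam (hd : 1 ≤ d) (z lam : ℝ) (V : Tor d M → ℝ) (n : ℕ) (x y : Tor d M) :
    (TM (z - lam) V ^ n) x y = ∑ j ∈ Finset.range (n + 1),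
      ((n.choose j : ℝ) * (lam / (8 * d)) ^ (n - j)) * (TM z V ^ j) x y := by
  obtain ⟨l, hl⟩ : ∃ l : ℝ, l = lam / (8 * d) := ⟨_, rfl⟩
  rw [H76.TM_lam hd, ← hl]
  have hc : Commute (TM z V) (l • (1 : Matrix (Tor d M) (Tor d M) ℝ)) :=
    (Commute.one_right _).smul_right l
  rw [hc.add_pow, Matrix.sum_apply]
  refine Finset.sum_congr rfl fun j _ => ?_
  rw [smul_pow, one_pow]
  have e1 : TM z V ^ j * l ^ (n - j) • (1 : Matrix (Tor d M) (Tor d M) ℝ) *
      ((n.choose j : ℕ) : Matrix (Tor d M) (Tor d M) ℝ) =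
      ((n.choose j : ℝ) * l ^ (n - j)) • (TM z V ^ j) := by
    rw [Matrix.mul_smul, Matrix.mul_one, ← nsmul_eq_mul', smul_comm, ← Nat.cast_smul_eq_nsmul ℝ,
      smul_smul, mul_comm]
  rw [e1, Matrix.smul_apply, smul_eq_mul]

theorem T_bd (cvb : CvbStmt) (hd : 1 ≤ d) {z μ ε lam : ℝ} {V : Tor d M → ℝ} (hz : z ≤ 2 * d + 1)
    (hF : FlatE ε z μ V) {n j : ℕ} (hn : 1 ≤ n) (hj : j ≤ n) (hlam : 0 ≤ lam)
    (hnl : n * lam ≤ 1) (x y : Tor d M) :
    |(TM (z - lam) V ^ j) x y| ≤ 6 * Real.exp (-((tds x y : ℝ) ^ 2 / (2 * n))) := by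
  have hd1 : (1 : ℝ) ≤ d := by exact_mod_cast hd
  obtain ⟨e, he⟩ : ∃ e : ℝ, e = Real.exp (-((tds x y : ℝ) ^ 2 / (2 * n))) := ⟨_, rfl⟩
  have he0 : 0 ≤ e := by rw [he]; exact (Real.exp_pos _).le
  have hB : ∀ i ≤ j, |(TM z V ^ i) x y| ≤ 2 * e := by
    intro i hi
    rw [he]
    exact T0_bd cvb hd hz hF hn (hi.trans hj) x y
  rw [← he, TM_pow_lam hd]
  obtain ⟨l, hl⟩ : ∃ l : ℝ, l = lam / (8 * d) := ⟨_, rfl⟩
  rw [← hl]
  have hl0 : 0 ≤ l := by rw [hl]; positivity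
  have h1 : |∑ i ∈ Finset.range (j + 1), ((j.choose i : ℝ) * l ^ (j - i)) * (TM z V ^ i) x y| ≤
      ∑ i ∈ Finset.range (j + 1), ((j.choose i : ℝ) * l ^ (j - i)) * (2 * e) := by
    refine (Finset.abs_sum_le_sum_abs _ _).trans (Finset.sum_le_sum fun i hi => ?_)
    rw [abs_mul, abs_of_nonneg (by positivity : 0 ≤ (j.choose i : ℝ) * l ^ (j - i))]
    exact mul_le_mul_of_nonneg_left (hB i (Nat.lt_succ_iff.1 (Finset.mem_range.1 hi)))
      (by positivity)
  refine h1.trans ?_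
  rw [← Finset.sum_mul]
  have h3 : ∑ i ∈ Finset.range (j + 1), ((j.choose i : ℝ) * l ^ (j - i)) = (1 + l) ^ j := by
    rw [add_pow]
    refine Finset.sum_congr rfl fun i _ => ?_
    rw [one_pow]
    ring
  have h4 : (1 + l) ^ j ≤ 3 := by
    have h5 : 1 + l ≤ Real.exp l := by
      rw [add_comm]
      exact Real.add_one_le_exp l
    have h6 : (1 + l) ^ j ≤ Real.exp l ^ j := pow_le_pow_left₀ (by linarith) h5 j
    rw [← Real.exp_nat_mul] at h6
    have h7 : j * l ≤ 1 := by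
      have h8 : l ≤ lam := by
        rw [hl]
        exact div_le_self hlam (by linarith)
      have hjn : (j : ℝ) ≤ n := by exact_mod_cast hj
      calc (j : ℝ) * l ≤ n * lam := mul_le_mul hjn h8 hl0 (Nat.cast_nonneg n)
        _ ≤ 1 := hnl
    have h13 : Real.exp (j * l) ≤ Real.exp 1 := Real.exp_le_exp.2 h7
    have h14 := Real.exp_one_lt_d9
    linarith
  rw [h3]
  calc (1 + l) ^ j * (2 * e) ≤ 3 * (2 * e) := mul_le_mul_of_nonneg_right h4 (by positivity)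
    _ = 6 * e := by ring

theorem sfn_bd (cvb : CvbStmt) (hd : 1 ≤ d) {z μ ε lam : ℝ} {V : Tor d M → ℝ}
    (hz : z ≤ 2 * d + 1) (hμ : 0 < μ) (hε : ε ≤ 1 / 50) (hF : FlatE ε z μ V) {n : ℕ} (hn : 1 ≤ n)
    (hlam : 0 ≤ lam) (hnl : n * lam ≤ 1) (x y : Tor d M) :
    ‖sfn z μ lam V n x y‖ ≤ 2 * n * Real.exp (-((tds x y : ℝ) ^ 2 / (2 * n))) := by
  have hd1 : (1 : ℝ) ≤ d := by exact_mod_cast hd
  obtain ⟨e, he⟩ : ∃ e : ℝ, e = Real.exp (-((tds x y : ℝ) ^ 2 / (2 * n))) := ⟨_, rfl⟩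
  have he0 : 0 ≤ e := by rw [he]; exact (Real.exp_pos _).le
  have hom := om_near hμ hF y
  have hom1 : 1 / 2 ≤ om z μ V y := by
    have := (abs_le.1 hom).1
    linarith
  have h1 : |∑ j ∈ Finset.range n, (TM (z - lam) V ^ j) x y| ≤ n * (6 * e) := by
    refine (Finset.abs_sum_le_sum_abs _ _).trans ?_
    refine (Finset.sum_le_card_nsmul _ _ (6 * e) fun j hj => ?_).trans (le_of_eq ?_)
    · rw [he]
      exact T_bd cvb hd hz hF hn (Finset.mem_range.1 hj).le hlam hnl x y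
    · rw [Finset.card_range, nsmul_eq_mul]
  unfold sfn
  rw [← he, Complex.norm_real, Real.norm_eq_abs, abs_div, abs_div,
    abs_of_pos (by linarith : 0 < om z μ V y), abs_of_pos (by positivity : (0 : ℝ) < 8 * d),
    div_le_iff₀ (by linarith), div_le_iff₀ (by positivity)]
  refine h1.trans ?_
  have h2 : (0 : ℝ) ≤ 2 * n * e := by positivity
  calc (n : ℝ) * (6 * e) = (2 * n * e) * (1 / 2) * 6 := by ring
    _ ≤ (2 * n * e) * om z μ V y * (8 * d) := by
      refine mul_le_mul (mul_le_mul_of_nonneg_left hom1 h2) (by linarith) (by norm_num) ?_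
      exact mul_nonneg h2 (by linarith)

theorem sfn_supp {z μ lam : ℝ} {V : Tor d M → ℝ} {n : ℕ} {x y : Tor d M} (h : n ≤ tds x y) :
    sfn z μ lam V n x y = 0 := by
  unfold sfn
  have h1 : ∑ j ∈ Finset.range n, (TM (z - lam) V ^ j) x y = 0 := by
    refine Finset.sum_eq_zero fun j hj => ?_
    by_contra hne
    have h2 := H95.pow_zero_of_lt (H76.TM_supp (z - lam) V) j x y hne
    have h3 := Finset.mem_range.1 hj
    omega
  rw [h1, zero_div, zero_div, Complex.ofReal_zero]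

theorem aop_norm {ω : Tor d M → ℝ} {h lam Q : ℝ} (hω1 : ∀ y, 0 < ω y) (hω2 : ∀ y, ω y ≤ 2)
    (hh : 0 ≤ h) (hh1 : h ≤ 1) (hl : 0 ≤ lam) (hl1 : lam ≤ 1) {f : Tor d M → ℂ}
    (hf : ∀ y, ‖f y‖ ≤ Q) (y : Tor d M) : ‖aop ω h lam f y‖ ≤ (16 * d + 6) * Q := by
  have hQ : 0 ≤ Q := (norm_nonneg _).trans (hf y)
  have key : ∀ w : Tor d M, ‖((ω y * ω w : ℝ) : ℂ) * (f y - f w)‖ ≤ 8 * Q := by
    intro w
    rw [norm_mul, Complex.norm_real, Real.norm_eq_abs,
      abs_of_pos (mul_pos (hω1 y) (hω1 w))]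
    have h1 : ω y * ω w ≤ 2 * 2 := mul_le_mul (hω2 y) (hω2 w) (hω1 w).le (by norm_num)
    have h2 : ‖f y - f w‖ ≤ 2 * Q := by
      have := norm_sub_le (f y) (f w)
      have a1 := hf y
      have a2 := hf w
      linarith
    calc ω y * ω w * ‖f y - f w‖ ≤ (2 * 2) * (2 * Q) :=
          mul_le_mul h1 h2 (norm_nonneg _) (by norm_num)
      _ = 8 * Q := by ring
  have hlast : ‖((h * ω y - lam * ω y ^ 2 : ℝ) : ℂ) * f y‖ ≤ 6 * Q := by
    rw [norm_mul, Complex.norm_real, Real.norm_eq_abs]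
    have h1 : |h * ω y - lam * ω y ^ 2| ≤ 6 := by
      have a1 : 0 ≤ h * ω y := mul_nonneg hh (hω1 y).le
      have a2 : h * ω y ≤ 1 * 2 := mul_le_mul hh1 (hω2 y) (hω1 y).le zero_le_one
      have a3 : ω y ^ 2 ≤ 2 ^ 2 := pow_le_pow_left₀ (hω1 y).le (hω2 y) 2
      have a4 : 0 ≤ lam * ω y ^ 2 := by positivity
      have a5 : lam * ω y ^ 2 ≤ 1 * 2 ^ 2 := mul_le_mul hl1 a3 (by positivity) zero_le_one
      rw [abs_le]
      constructor <;> linarith
    exact mul_le_mul h1 (hf y) (norm_nonneg _) (by norm_num)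
  unfold aop
  refine (norm_add_le _ _).trans ?_
  have hsum : ‖∑ i : Fin d, (((ω y * ω (y + ev i) : ℝ) : ℂ) * (f y - f (y + ev i)) +
      ((ω y * ω (y - ev i) : ℝ) : ℂ) * (f y - f (y - ev i)))‖ ≤ d * (16 * Q) := by
    refine (norm_sum_le _ _).trans ?_
    refine (Finset.sum_le_card_nsmul _ _ (16 * Q) fun i _ => ?_).trans (le_of_eq ?_)
    · refine (norm_add_le _ _).trans ?_
      have a1 := key (y + ev i)
      have a2 := key (y - ev i)
      linarith
    · rw [Finset.card_univ, Fintype.card_fin, nsmul_eq_mul]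
  calc _ ≤ d * (16 * Q) + 6 * Q := add_le_add hsum hlast
    _ = (16 * d + 6) * Q := by ring

theorem card_tds (x : Tor d M) (n : ℕ) :
    (Finset.univ.filter fun y : Tor d M => tds x y ≤ n).card ≤ (2 * n + 1) ^ d := by
  classical
  have h1 : (Finset.univ.filter fun y : Tor d M => tds x y ≤ n).card ≤
      (Fintype.piFinset fun _ : Fin d => Finset.Icc (-(n : ℤ)) n).card := by
    refine Finset.card_le_card_of_injOn (fun y i => (y i - x i).valMinAbs) ?_ ?_
    · intro y hy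
      have hy' : tds x y ≤ n := (Finset.mem_filter.1 (Finset.mem_coe.1 hy)).2
      rw [Finset.mem_coe, Fintype.mem_piFinset]
      intro i
      have h2 : (y i - x i).valMinAbs.natAbs ≤ n :=
        (Finset.le_sup (f := fun i => (y i - x i).valMinAbs.natAbs) (Finset.mem_univ i)).trans hy'
      rw [Finset.mem_Icc]
      show -(n : ℤ) ≤ (y i - x i).valMinAbs ∧ (y i - x i).valMinAbs ≤ n
      omega
    · intro y _ y' _ h
      funext i
      have h2 := congrFun h i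
      have h3 : y i - x i = y' i - x i := ZMod.injective_valMinAbs h2
      exact sub_left_inj.1 h3
  refine h1.trans (le_of_eq ?_)
  rw [Fintype.card_piFinset_const, Int.card_Icc]
  congr 1
  omega

theorem aop_tail {ω : Tor d M → ℝ} {h lam Q : ℝ} (hω1 : ∀ y, 0 < ω y) (hω2 : ∀ y, ω y ≤ 2)
    (hh : 0 ≤ h) (hh1 : h ≤ 1) (hl : 0 ≤ lam) (hl1 : lam ≤ 1) {f : Tor d M → ℂ}
    (hf : ∀ y, ‖f y‖ ≤ Q) {x : Tor d M} {n : ℕ} (hsupp : ∀ y, n ≤ tds x y → f y = 0) :
    ∑ y, ‖aop ω h lam f y‖ ^ 2 ≤ (2 * (n : ℝ) + 1) ^ d * ((16 * d + 6) * Q) ^ 2 := by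
  classical
  have h0 : ∀ y, n < tds x y → aop ω h lam f y = 0 := by
    intro y hy
    have h1 : ∀ w, tds w y ≤ 1 → f w = 0 := by
      intro w hw
      refine hsupp w ?_
      have := H95.tds_tri x y w
      omega
    have h2 : f y = 0 := hsupp y hy.le
    have h3 : ∀ i : Fin d, f (y + ev i) = 0 ∧ f (y - ev i) = 0 := by
      intro i
      constructor
      · refine h1 _ ?_
        have := (H76.tds_ev (y + ev i) i).2
        rwa [add_sub_cancel_right] at this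
      · refine h1 _ ?_
        have := (H76.tds_ev (y - ev i) i).1
        rwa [sub_add_cancel] at this
    unfold aop
    rw [h2, mul_zero, add_zero]
    refine Finset.sum_eq_zero fun i _ => ?_
    rw [(h3 i).1, (h3 i).2, sub_zero, mul_zero, mul_zero, add_zero]
  rw [← Finset.sum_filter_of_ne (p := fun y => tds x y ≤ n)]
  · refine (Finset.sum_le_card_nsmul _ _ (((16 * d + 6) * Q) ^ 2) fun y _ => ?_).trans ?_
    · exact pow_le_pow_left₀ (norm_nonneg _) (aop_norm hω1 hω2 hh hh1 hl hl1 hf y) 2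
    · rw [nsmul_eq_mul]
      refine mul_le_mul_of_nonneg_right ?_ (sq_nonneg _)
      exact_mod_cast card_tds x n
  · intro y _ hy
    by_contra hcon
    apply hy
    rw [h0 y (not_le.1 hcon), norm_zero, zero_pow two_ne_zero]

/-- the local part, cut at the distance `r₀` -/
def scf (z μ lam : ℝ) (V : Tor d M → ℝ) (n r₀ : ℕ) (x y : Tor d M) : ℂ :=
  if tds x y ≤ r₀ then sfn z μ lam V n x y else 0

theorem scf_tail (cvb : CvbStmt) (hd : 1 ≤ d) {z μ ε lam : ℝ} {V : Tor d M → ℝ}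
    (hz : z ≤ 2 * d + 1) (hμ : 1 ≤ μ) (hε0 : 0 < ε) (hε : ε ≤ 1 / 50) (hF : FlatE ε z μ V) {n r₀ : ℕ}
    (hn : 1 ≤ n) (hlam : 0 ≤ lam) (hnl : n * lam ≤ 1) (x : Tor d M) :
    ∑ y, ‖aop (om z μ V) (1 / μ) lam
      (fun u => sfn z μ lam V n x u - scf z μ lam V n r₀ x u) y‖ ^ 2 ≤
      (2 * (n : ℝ) + 1) ^ d * ((16 * d + 6) * (2 * n * Real.exp (-((r₀ : ℝ) ^ 2 / (2 * n))))) ^ 2 := by
  have hμ0 : 0 < μ := by linarith
  have hn1 : (1 : ℝ) ≤ n := by exact_mod_cast hn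
  have hω1 : ∀ y, 0 < om z μ V y := by
    intro y
    have h1 := (abs_le.1 (om_near hμ0 hF y)).1
    linarith
  have hω2 : ∀ y, om z μ V y ≤ 2 := by
    intro y
    have h1 := (abs_le.1 (om_near hμ0 hF y)).2
    linarith
  have hlam1 : lam ≤ 1 := (le_mul_of_one_le_left hlam hn1).trans hnl
  refine aop_tail hω1 hω2 (by positivity) ?_ hlam hlam1 ?_ (x := x) ?_
  · rw [div_le_one hμ0]
    exact hμ
  · intro y
    unfold scf
    split_ifs with h
    · rw [sub_self, norm_zero]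
      positivity
    · rw [sub_zero]
      refine (sfn_bd cvb hd hz hμ0 hε hF hn hlam hnl x y).trans ?_
      have h1 : (r₀ : ℝ) ≤ tds x y := by exact_mod_cast (not_le.1 h).le
      have h2 : (r₀ : ℝ) ^ 2 ≤ (tds x y : ℝ) ^ 2 := pow_le_pow_left₀ (Nat.cast_nonneg _) h1 2
      have h3 : (r₀ : ℝ) ^ 2 / (2 * n) ≤ (tds x y : ℝ) ^ 2 / (2 * n) :=
        div_le_div_of_nonneg_right h2 (by positivity)
      exact mul_le_mul_of_nonneg_left (Real.exp_le_exp.2 (by linarith)) (by positivity)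
  · intro y hy
    unfold scf
    rw [sfn_supp hy, ite_self, sub_zero]

end Pool.Agent.LE.IR.H56
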