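import Pool.Agent.Helper56_LIR.CLF2
import Pool.Agent.Helper56_LIR.CLF3

/-!
# CLF, part 4: the numbers, the system
-/

set_option autoImplicit false

open MeasureTheory ProbabilityTheory Function Filter

open scoped ENNReal BigOperators Topology NNReal

noncomputable section

namespace Pool.Agent.LE.IR.H56

open Pool.Agent.Anderson hiding box mem_box card_box
open Pool.Agent.Loc hiding nb
open Pool.Agent.Mob Pool.Agent.Helper54.Bal
  Pool.Agent.Helper96.EXP Pool.Agent.BED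
open Pool.Agent.LE.MN Pool.Agent.LE.CL Pool.Agent.LE.CL.H48

/-- the number of the tail -/
theorem tail_num {d n r₀ : ℕ} {cB η Cf : ℝ} (hn : 1 ≤ n) (hcB : 0 < cB) (hη : 0 < η)
    (hη1 : η ≤ 1) (hnη : η * n ≤ 1) (hC1 : 2 * (d : ℝ) + 3 ≤ Cf)
    (hC2 : 16 * 3 ^ d * (16 * (d : ℝ) + 6) ^ 2 / cB ≤ Cf)
    (hr : Cf * (1 + Real.log (1 / η)) * n ≤ (r₀ : ℝ) ^ 2) :
    (2 * (n : ℝ) + 1) ^ d * ((16 * d + 6) * (2 * n * Real.exp (-((r₀ : ℝ) ^ 2 / (2 * n))))) ^ 2 ≤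
      cB / 4 * η ^ (d + 1) := by
  have hn1 : (1 : ℝ) ≤ n := by exact_mod_cast hn
  have hn0 : (0 : ℝ) < n := by linarith
  have hd0 : (0 : ℝ) ≤ d := Nat.cast_nonneg d
  have hCf : 0 < Cf := by linarith
  have hL : 0 ≤ Real.log (1 / η) := Real.log_nonneg (by rw [le_div_iff₀ hη]; linarith)
  obtain ⟨e, he⟩ : ∃ e : ℝ, e = Real.exp (-((r₀ : ℝ) ^ 2 / (2 * n))) := ⟨_, rfl⟩
  have he0 : 0 ≤ e := by rw [he]; exact (Real.exp_pos _).le
  have he2 : e ^ 2 ≤ Real.exp (-Cf) * η ^ (2 * d + 3) := by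
    have h1 : e ^ 2 = Real.exp (-((r₀ : ℝ) ^ 2 / n)) := by
      rw [he, ← Real.exp_nat_mul]
      congr 1
      push_cast
      field_simp
    have h2 : Real.exp (-Cf) * η ^ (2 * d + 3) =
        Real.exp (-(Cf + (2 * d + 3) * Real.log (1 / η))) := by
      have h3 : η ^ (2 * d + 3) = Real.exp (((2 * d + 3 : ℕ) : ℝ) * Real.log η) := by
        rw [← Real.log_pow, Real.exp_log (by positivity)]
      rw [h3, ← Real.exp_add, one_div, Real.log_inv]
      congr 1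
      push_cast
      ring
    rw [h1, h2]
    apply Real.exp_le_exp.2
    have h3 : Cf * (1 + Real.log (1 / η)) ≤ (r₀ : ℝ) ^ 2 / n := by
      rw [le_div_iff₀ hn0]
      exact hr
    have h4 : (2 * (d : ℝ) + 3) * Real.log (1 / η) ≤ Cf * Real.log (1 / η) :=
      mul_le_mul_of_nonneg_right hC1 hL
    linarith
  have h1 : (2 * (n : ℝ) + 1) ^ d ≤ (3 * n) ^ d :=
    pow_le_pow_left₀ (by positivity) (by linarith) d
  have h2 : Real.exp (-Cf) * (16 * 3 ^ d * (16 * (d : ℝ) + 6) ^ 2) ≤ cB := by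
    have h3 : Real.exp (-Cf) ≤ 1 / Cf := by
      rw [Real.exp_neg, one_div]
      exact inv_anti₀ hCf (by linarith [Real.add_one_le_exp Cf])
    have h4 : (0 : ℝ) ≤ 16 * 3 ^ d * (16 * (d : ℝ) + 6) ^ 2 := by positivity
    refine (mul_le_mul_of_nonneg_right h3 h4).trans ?_
    rw [div_mul_eq_mul_div, one_mul, div_le_iff₀ hCf]
    rw [div_le_iff₀ hcB] at hC2
    linarith
  have h3 : (η * n) ^ (d + 2) ≤ 1 := pow_le_one₀ (by positivity) hnη
  rw [← he]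
  calc (2 * (n : ℝ) + 1) ^ d * ((16 * d + 6) * (2 * n * e)) ^ 2 ≤
      (3 * n) ^ d * ((16 * d + 6) * (2 * n * e)) ^ 2 :=
        mul_le_mul_of_nonneg_right h1 (sq_nonneg _)
    _ = (4 * 3 ^ d * (16 * d + 6) ^ 2 * (n : ℝ) ^ (d + 2)) * e ^ 2 := by
        rw [mul_pow, pow_add]
        ring
    _ ≤ (4 * 3 ^ d * (16 * d + 6) ^ 2 * (n : ℝ) ^ (d + 2)) *
        (Real.exp (-Cf) * η ^ (2 * d + 3)) := mul_le_mul_of_nonneg_left he2 (by positivity)
    _ = (Real.exp (-Cf) * (16 * 3 ^ d * (16 * (d : ℝ) + 6) ^ 2)) / 4 *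
        ((η * n) ^ (d + 2) * η ^ (d + 1)) := by
        have : η ^ (2 * d + 3) = η ^ (d + 2) * η ^ (d + 1) := by
          rw [← pow_add]
          congr 1
          ring
        rw [this, mul_pow]
        ring
    _ ≤ cB / 4 * (1 * η ^ (d + 1)) := by
        refine mul_le_mul (by linarith) ?_ (by positivity) (by linarith)
        exact mul_le_mul_of_nonneg_right h3 (by positivity)
    _ = cB / 4 * η ^ (d + 1) := by rw [one_mul]

/-- the condition which replaces the condition for the mass of the local part -/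
theorem kap_eta {d : ℕ} {n : ℕ} {l η : ℝ} (hn : 1 ≤ n) (hl : 0 < l) (hnl : n * l ≤ 1)
    (hηd : η * (1 / (n * l)) ^ d ≤ l) :
    (1 / (n : ℝ)) ^ (((d : ℝ) - 4) / 2) * η ≤ l ^ (((d : ℝ) - 2) / 2) := by
  have hn0 : (0 : ℝ) < n := by exact_mod_cast hn
  obtain ⟨u, hu⟩ : ∃ u : ℝ, u = n * l := ⟨_, rfl⟩
  obtain ⟨k, hk⟩ : ∃ k : ℝ, k = 1 / (n : ℝ) := ⟨_, rfl⟩
  have hk0 : 0 < k := by rw [hk]; positivity
  have hu0 : 0 < u := by rw [hu]; positivity
  have hlu : l = u * k := by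
    rw [hu, hk]
    field_simp
  rw [← hu] at hηd hnl
  rw [← hk]
  have h1 : η ≤ l * u ^ d := by
    have h2 : η * (1 / u) ^ d * u ^ d ≤ l * u ^ d :=
      mul_le_mul_of_nonneg_right hηd (by positivity)
    have h3 : η * (1 / u) ^ d * u ^ d = η := by
      rw [mul_assoc, ← mul_pow, one_div, inv_mul_cancel₀ hu0.ne', one_pow, mul_one]
    rwa [h3] at h2
  have h2 : k ^ (((d : ℝ) - 4) / 2) * k = k ^ (((d : ℝ) - 2) / 2) := by
    have h3 : ((d : ℝ) - 2) / 2 = ((d : ℝ) - 4) / 2 + 1 := by ring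
    rw [h3, Real.rpow_add_one hk0.ne']
  have h4 : u ^ (d + 1) ≤ u ^ (((d : ℝ) - 2) / 2) := by
    rw [← Real.rpow_natCast]
    refine Real.rpow_le_rpow_of_exponent_ge hu0 hnl ?_
    push_cast
    have : (0 : ℝ) ≤ d := Nat.cast_nonneg d
    linarith
  calc k ^ (((d : ℝ) - 4) / 2) * η ≤ k ^ (((d : ℝ) - 4) / 2) * (l * u ^ d) :=
        mul_le_mul_of_nonneg_left h1 (Real.rpow_pos_of_pos hk0 _).le
    _ = (k ^ (((d : ℝ) - 4) / 2) * k) * u ^ (d + 1) := by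
        rw [hlu, pow_succ]
        ring
    _ = k ^ (((d : ℝ) - 2) / 2) * u ^ (d + 1) := by rw [h2]
    _ ≤ k ^ (((d : ℝ) - 2) / 2) * u ^ (((d : ℝ) - 2) / 2) :=
        mul_le_mul_of_nonneg_left h4 (Real.rpow_pos_of_pos hk0 _).le
    _ = l ^ (((d : ℝ) - 2) / 2) := by
        rw [hlu, Real.mul_rpow hu0.le hk0.le, mul_comm]

theorem numT_off {d M : ℕ} [NeZero M] {A' Cs Cm cB c w l lam μ ε η τ : ℝ} {n : ℕ} (hd : 3 ≤ d)
    (hCs : 1 ≤ Cs) (hCm : Cm ≤ A') (hcB : 0 < cB) (hc : 0 ≤ c) (hcc : c ≤ cB) (hc4 : 4 * c ≤ 1)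
    (hcs : c ≤ (cB / (5 * Cs)) ^ 2) (hw : |w - 1| ≤ 1 / 10) (hlam : 0 < lam)
    (hμ : 0 < μ) (hlμ : 100 ≤ lam * μ) (hl0 : 0 < l) (hll : l ≤ lam) (hε : 0 < ε) (hεc : ε ≤ c)
    (hn : 1 ≤ n) (hn2 : lam * (n * (1 + Real.log n)) ≤ c) (hη : 0 < η) (hηc : η ≤ c)
    (hηn : η * (1 + Real.log (1 / η)) * n ≤ c)
    (hηd : η * (1 / (n * l)) ^ d ≤ l) (hτ : 0 ≤ τ)
    (hτ2 : τ ^ 2 * (1 / (n : ℝ)) ^ (((d : ℝ) - 2) / 2) * (1 + Real.log (1 / η)) ≤
      c * l ^ (((d : ℝ) - 2) / 2))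
    (h2 : pm (fun p : Tor d M => if ds p ≤ 1 / (n : ℝ) then (mt l η p ^ 2)⁻¹ else 0) ≤
        Cm * l ^ (((d : ℝ) - 2) / 2) / η)
    (h1 : pm (fun p : Tor d M => if ds p ≤ 1 / (n : ℝ) then (mt l η p)⁻¹ else 0) ≤
        Cm * (1 / (n : ℝ)) ^ (((d : ℝ) - 2) / 2) * (1 + Real.log (1 / η))) :
    NumT d M A' cB w l η τ (cB * η) (cB * η * l ^ (((d : ℝ) - 2) / 2)) (1 / n) 0
      (Cs * (ε + n * (lam + 1 / μ) + Real.sqrt (4 * l * (n * (1 + Real.log n)))))
      (l ^ (((d : ℝ) - 2) / 2))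
      ((1 / (n : ℝ)) ^ (((d : ℝ) - 2) / 2) * (1 + Real.log (1 / η))) := by
  have hn1 : (1 : ℝ) ≤ n := by exact_mod_cast hn
  have hn0 : (0 : ℝ) < n := by linarith
  have hd3 : (3 : ℝ) ≤ d := by exact_mod_cast hd
  have hlogn := Real.log_nonneg hn1
  have hη1 : η ≤ 1 := by linarith
  have hL : 0 ≤ Real.log (1 / η) := Real.log_nonneg (by rw [le_div_iff₀ hη]; linarith)
  have hD0 : 0 < l ^ (((d : ℝ) - 2) / 2) := Real.rpow_pos_of_pos hl0 _
  have hnl : lam * n ≤ c := by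
    refine le_trans ?_ hn2
    refine mul_le_mul_of_nonneg_left ?_ hlam.le
    exact le_mul_of_one_le_right hn0.le (by linarith)
  have hκ1 : (1 : ℝ) / n ≤ 1 := by
    rw [div_le_one hn0]
    exact hn1
  have hκ0 : (0 : ℝ) < 1 / n := by positivity
  have hln : l * n ≤ lam * n := mul_le_mul_of_nonneg_right hll hn0.le
  have hlκ : 4 * l ≤ 1 / n := by
    rw [le_div_iff₀ hn0]
    linarith
  have he0 : 0 ≤ ((d : ℝ) - 2) / 2 := by linarith
  have hb : (1 / (n : ℝ)) ^ (((d : ℝ) - 2) / 2) ≤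
      (1 / (n : ℝ)) ^ (((d : ℝ) - 2) / 2) * (1 + Real.log (1 / η)) := by
    have h3 : 0 < (1 / (n : ℝ)) ^ (((d : ℝ) - 2) / 2) := Real.rpow_pos_of_pos hκ0 _
    exact le_mul_of_one_le_right h3.le (by linarith)
  refine ⟨hw, ⟨hη, ?_, hη1⟩, ⟨hl0, hlκ, hκ1⟩, ⟨hD0, ?_⟩, ⟨hb, ?_⟩, ⟨le_rfl, ?_⟩, ⟨?_, le_rfl⟩,
    ⟨?_, le_rfl⟩, ⟨hτ, ?_⟩, ⟨?_, ?_⟩, ?_, ?_⟩
  · rw [mul_one_div cB, le_div_iff₀ hn0]
    linarith
  · refine le_trans ?_ hb
    exact Real.rpow_le_rpow hl0.le (by linarith) he0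
  · exact kap_eta hn hl0 (by linarith) hηd
  · rw [zero_mul]
    exact hD0.le
  · positivity
  · positivity
  · rw [← mul_assoc]
    exact le_trans hτ2 (mul_le_mul_of_nonneg_right hcc hD0.le)
  · have h3 : 0 ≤ 1 / μ := by positivity
    have h4 := Real.sqrt_nonneg (4 * l * (n * (1 + Real.log n)))
    have h5 : 0 ≤ (n : ℝ) * (lam + 1 / μ) := by positivity
    positivity
  · have hc1 : 0 ≤ Real.sqrt c := Real.sqrt_nonneg c
    have hcsq : Real.sqrt c ^ 2 = c := Real.sq_sqrt hc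
    have hc2 : Real.sqrt c ≤ cB / (5 * Cs) := Real.sqrt_le_iff.2 ⟨by positivity, hcs⟩
    have hc3 : c ≤ Real.sqrt c := by
      have h3 : Real.sqrt c ≤ 1 := Real.sqrt_le_one.2 (by linarith)
      calc c = Real.sqrt c * Real.sqrt c := (Real.mul_self_sqrt hc).symm
        _ ≤ Real.sqrt c * 1 := mul_le_mul_of_nonneg_left h3 hc1
        _ = Real.sqrt c := mul_one _
    have h3 : Real.sqrt (4 * l * (n * (1 + Real.log n))) ≤ 2 * Real.sqrt c := by
      refine Real.sqrt_le_iff.2 ⟨by positivity, ?_⟩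
      rw [mul_pow, hcsq]
      have h4 : l * (n * (1 + Real.log n)) ≤ lam * (n * (1 + Real.log n)) :=
        mul_le_mul_of_nonneg_right hll (by positivity)
      linarith
    have h4 : 1 / μ ≤ lam := by
      rw [div_le_iff₀ hμ]
      linarith
    have h5 : (n : ℝ) * (lam + 1 / μ) ≤ 2 * c := by
      have h6 : (n : ℝ) * (lam + 1 / μ) ≤ n * (2 * lam) :=
        mul_le_mul_of_nonneg_left (by linarith) hn0.le
      linarith
    have h6 : ε + n * (lam + 1 / μ) + Real.sqrt (4 * l * (n * (1 + Real.log n))) ≤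
        5 * Real.sqrt c := by linarith
    have hCs0 : 0 < Cs := by linarith
    calc Cs * (ε + n * (lam + 1 / μ) + Real.sqrt (4 * l * (n * (1 + Real.log n)))) ≤
        Cs * (5 * (cB / (5 * Cs))) := mul_le_mul_of_nonneg_left (by linarith) hCs0.le
      _ = cB := by
        field_simp
  · refine le_trans h2 ?_
    exact div_le_div_of_nonneg_right (mul_le_mul_of_nonneg_right hCm hD0.le) hη.le
  · refine le_trans h1 ?_
    rw [mul_assoc]
    exact mul_le_mul_of_nonneg_right hCm (by positivity)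

/-- the Green functions without the local part -/
def rT {d M : ℕ} [NeZero M] (z μ lam : ℝ) (V : Site d → ℝ) (n r₀ : ℕ) (Λ : Finset (Site d))
    (κ : ℝ) (b : Site d) (ρ : ℕ) (C' : Finset (Site d)) (x y : Tor d M) : ℂ :=
  gT (om z μ fun x : Tor d M => V (b + rep x)) V Λ (z - lam) κ b ρ C' x y -
    scf z μ lam (fun x : Tor d M => V (b + rep x)) n r₀ x y

/-- the whole error -/
def eTf {d M : ℕ} [NeZero M] (z μ lam : ℝ) (V : Site d → ℝ) (n r₀ : ℕ) (Λ : Finset (Site d))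
    (κ : ℝ) (b : Site d) (ρ : ℕ) (C' : Finset (Site d)) (x y : Tor d M) : ℂ :=
  eT (om z μ fun x : Tor d M => V (b + rep x)) V Λ (z - lam) κ b ρ C' x y +
    aop (om z μ fun x : Tor d M => V (b + rep x)) (1 / μ) lam
      (fun u => sfn z μ lam (fun x : Tor d M => V (b + rep x)) n x u -
        scf z μ lam (fun x : Tor d M => V (b + rep x)) n r₀ x u) y

theorem norm_add_sq_le2 (a b : ℂ) : ‖a + b‖ ^ 2 ≤ 2 * ‖a‖ ^ 2 + 2 * ‖b‖ ^ 2 := by
  have h1 : ‖a + b‖ ^ 2 ≤ (‖a‖ + ‖b‖) ^ 2 :=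
    pow_le_pow_left₀ (norm_nonneg _) (norm_add_le a b) 2
  have h2 := sq_nonneg (‖a‖ - ‖b‖)
  linarith [h1, h2, (by ring : (‖a‖ + ‖b‖) ^ 2 = 2 * ‖a‖ ^ 2 + 2 * ‖b‖ ^ 2 - (‖a‖ - ‖b‖) ^ 2)]

theorem sysT_off {d M : ℕ} [NeZero M] {Cs : ℝ} {V : Site d → ℝ} {Λ : Finset (Site d)}
    {z μ ε lam w l η τ κ s a A' cB D₀ : ℝ} {b : Site d} {p r₀ m R n : ℕ}
    {C C' : Finset (Site d)} (hμ : 0 < μ) (hz : z ≤ 2 * d + 1) (hε : 0 < ε) (hε1 : ε ≤ 1 / 50)
    (hF : FlatE ε z μ (fun x : Tor d M => V (b + rep x)))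
    (hsrc : ∀ x : Tor d M,
      (∀ y, aop (om z μ fun x : Tor d M => V (b + rep x)) (1 / μ) lam
        (fun u => sfn z μ lam (fun x : Tor d M => V (b + rep x)) n x u) y =
        (if y = x then ((om z μ fun x : Tor d M => V (b + rep x)) x : ℂ) else 0) -
          Sfn z μ lam (fun x : Tor d M => V (b + rep x)) n x y) ∧
      (∀ p, ‖ft (sfn z μ lam (fun x : Tor d M => V (b + rep x)) n x) p‖ ≤ Cs * n) ∧
      ∑ y, ‖sfn z μ lam (fun x : Tor d M => V (b + rep x)) n x y‖ ^ 2 ≤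
        Cs * growth d n * (1 + Real.log n) ∧
      (∀ p, ‖ft (Sfn z μ lam (fun x : Tor d M => V (b + rep x)) n x) p‖ ≤ Cs) ∧
      ∑ y, ‖Sfn z μ lam (fun x : Tor d M => V (b + rep x)) n x y‖ ^ 2 ≤
        Cs * (1 / (n : ℝ)) ^ ((d : ℝ) / 2) ∧
      ∀ p, ‖ft (Sfn z μ lam (fun x : Tor d M => V (b + rep x)) n x) p -
        (starRingEnd ℂ) (ec p x)‖ ≤
        Cs * (ε + n * (lam + 1 / μ) + Real.sqrt (ds p * (n * (1 + Real.log n)))))
    (htail : ∀ x : Tor d M, ∑ y, ‖aop (om z μ fun x : Tor d M => V (b + rep x)) (1 / μ) lam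
      (fun u => sfn z μ lam (fun x : Tor d M => V (b + rep x)) n x u -
        scf z μ lam (fun x : Tor d M => V (b + rep x)) n r₀ x u) y‖ ^ 2 ≤ cB * η * D₀ / 4)
    (hCs : 0 ≤ Cs) (hA' : Cs ≤ A') (hn : 1 ≤ n)
    (hlam : 0 ≤ lam) (hlam1 : lam ≤ 1) (hκ : 0 ≤ κ) (hκ1 : κ ≤ 1)
    (hφ : 16 * d * κ = cB * η) (hR : 4 * R + 5 ≤ M) (hrR : p + r₀ + 1 + m ≤ R)
    (hΛ : box b (p + r₀ + 1 + m + 1) ⊆ Λ) (hC0 : b ∈ C) (hC : C ⊆ box b p) (hm : 1 ≤ m)
    (hCC : C ⊆ C') (hclu : clu V Λ (z - lam) s C (box b (p + r₀ + 1 + m)) ⊆ C')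
    (hC'b : C' ⊆ box b (p + r₀ + 1 + m)) (hnear : ∀ x ∈ C, ∀ y, sd x y ≤ r₀ → y ∈ C')
    (hcard : C'.card ≤ 2 * C.card) (hdet : (RM V Λ (z - lam)).det ≠ 0)
    (hG : ∀ x ∈ box b (p + r₀ + 1 + m), ∀ y ∈ box b (p + r₀ + 1 + m),
      |gr V Λ (z - lam) x y| ≤ Real.exp a)
    (hnum : 4 * ((2 * ((p + r₀ + 1 + m + 1 : ℕ) : ℝ) + 1) ^ d *
      ((4 * d + 2) * (Real.exp (-s) + Real.exp (a - κ * m))) ^ 2) ≤ cB * η * D₀ / 4)
    (hW : FBd (om z μ fun x : Tor d M => V (b + rep x)) (1 / μ) lam w l η τ) :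
    SysT (om z μ fun x : Tor d M => V (b + rep x)) (1 / μ) lam w l η τ (cB * η) (cB * η * D₀)
      A' (1 / n) 0
      (Cs * (ε + n * (lam + 1 / μ) + Real.sqrt (4 * l * (n * (1 + Real.log n)))))
      (im M b C) (im M b C')
      (rT z μ lam V n r₀ Λ κ b (p + r₀ + 1) C')
      (fun _ _ => 0)
      (Sfn z μ lam (fun x : Tor d M => V (b + rep x)) n)
      (FT (om z μ fun x : Tor d M => V (b + rep x)) V Λ (z - lam) κ b (p + r₀ + 1) C')
      (eTf z μ lam V n r₀ Λ κ b (p + r₀ + 1) C') := by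
  have hR2 : 2 * R + 5 ≤ M := by omega
  obtain ⟨ω, hω⟩ : ∃ ω : Tor d M → ℝ, ω = om z μ fun x : Tor d M => V (b + rep x) := ⟨_, rfl⟩
  have hnear1 : ∀ y, |ω y - 1| ≤ ε := fun y => by rw [hω]; exact om_near hμ hF y
  have heq : ∀ y : Tor d M, (z - V (lf b y)) * ω y -
      ∑ i : Fin d, (ω (y + ev i) + ω (y - ev i)) = 1 / μ := fun y => by
    rw [hω]; exact om_eq hF y
  have hrT : ∀ x y : Tor d M, rT z μ lam V n r₀ Λ κ b (p + r₀ + 1) C' x y =
      gT ω V Λ (z - lam) κ b (p + r₀ + 1) C' x y -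
        scf z μ lam (fun x : Tor d M => V (b + rep x)) n r₀ x y := fun x y => by
    rw [hω]; rfl
  have heTf : ∀ x y : Tor d M, eTf z μ lam V n r₀ Λ κ b (p + r₀ + 1) C' x y =
      eT ω V Λ (z - lam) κ b (p + r₀ + 1) C' x y + aop ω (1 / μ) lam
        (fun u => sfn z μ lam (fun x : Tor d M => V (b + rep x)) n x u -
          scf z μ lam (fun x : Tor d M => V (b + rep x)) n r₀ x u) y := fun x y => by
    rw [hω]; rfl
  rw [← hω] at hW hsrc htail ⊢
  have hωpos : ∀ y, 0 < ω y := by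
    intro y
    have h1 := (abs_le.1 (hnear1 y)).1
    linarith
  have hω2 : ∀ y, ω y ≤ 2 := by
    intro y
    have h1 := (abs_le.1 (hnear1 y)).2
    linarith
  have hω0 : ∀ y, ω y ≠ 0 := fun y => (hωpos y).ne'
  have hC'R : C' ⊆ box b R := fun y hy => box_mono b hrR (hC'b hy)
  have hCR : C ⊆ box b R := fun y hy => box_mono b (by omega) (hC hy)
  have hd0 : (0 : ℝ) ≤ d := Nat.cast_nonneg d
  have hVb : ∀ x ∈ box b (p + r₀ + 1 + m + 1), |V x - (z - lam)| ≤ 2 * d + 2 := by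
    intro x hx
    have h1 := mem_box.1 hx
    have h2 := lf_ti (M := M) hR2 (by omega : sd b x ≤ R + 2)
    have h3 : -1 ≤ V (lf b (ti M b x)) := hF.1 (ti M b x)
    have h4 : V (lf b (ti M b x)) ≤ z := V_le hF (ti M b x)
    rw [h2] at h3 h4
    rw [abs_le]
    constructor <;> linarith
  have hsc : ∀ x ∈ im M b C, ∀ y : Tor d M, tds x y ≤ r₀ → sd (lf b x) (lf b y) ≤ r₀ := by
    intro x hx y hxy
    rw [mem_im hR2 hCR] at hx
    exact sd_of_tds (R := R) (mem_box.1 (hCR hx)) hxy (by omega)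
  refine ⟨⟨?_, ?_, ?_⟩, ?_, ?_, ?_, ?_, ?_, ?_, ?_, ?_, ?_, hW⟩
  · refine ⟨ti M b b, ?_⟩
    rw [mem_im hR2 hCR, lf_ti hR2 (by rw [sd_self]; omega)]
    exact hC0
  · intro x hx
    rw [mem_im hR2 hCR] at hx
    rw [mem_im hR2 hC'R]
    exact hCC hx
  · rw [card_im hR2 hCR, card_im hR2 hC'R]
    exact hcard
  · intro x hx y hy
    rw [hrT]
    have h1 : scf z μ lam (fun x : Tor d M => V (b + rep x)) n r₀ x y = 0 := by
      unfold scf
      rw [if_neg]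
      intro hxy
      have h2 := hsc x hx y hxy
      rw [mem_im hR2 hCR] at hx
      apply hy
      rw [mem_im hR2 hC'R]
      exact hnear _ hx _ h2
    rw [mem_im hR2 hC'R] at hy
    rw [h1, sub_zero]
    unfold gT
    simp only [psr, tg, if_neg hy, mul_zero, zero_div, Complex.ofReal_zero]
  · intro x _ y
    have h1 := heqT (V := V) (Λ := Λ) (κ := κ) (b := b) (r₀ := p + r₀ + 1) (C' := C') (lam := lam)
      hR2 hC'R hω0 heq x y
    have h2 := (hsrc x).1 y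
    have h3 := aop_sub ω (1 / μ) lam (gT ω V Λ (z - lam) κ b (p + r₀ + 1) C' x)
      (fun u => scf z μ lam (fun x : Tor d M => V (b + rep x)) n r₀ x u) y
    have h4 := aop_sub ω (1 / μ) lam
      (fun u => sfn z μ lam (fun x : Tor d M => V (b + rep x)) n x u)
      (fun u => scf z μ lam (fun x : Tor d M => V (b + rep x)) n r₀ x u) y
    have h5 : (fun u => rT z μ lam V n r₀ Λ κ b (p + r₀ + 1) C' x u - 0) =
        fun w => gT ω V Λ (z - lam) κ b (p + r₀ + 1) C' x w -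
          scf z μ lam (fun x : Tor d M => V (b + rep x)) n r₀ x w := by
      funext u
      rw [hrT, sub_zero]
    rw [h5, h3, heTf, h4, h1, h2]
    ring
  · intro v
    have h1 := FT_normf (V := V) (Λ := Λ) (E := z - lam) (r₀ := p + r₀ + 1) hR2 hC'R hωpos hω2 hκ
      hκ1 (im M b C) (rT z μ lam V n r₀ Λ κ b (p + r₀ + 1) C') (by
        intro x hx y hy
        rw [hrT]
        have h2 : scf z μ lam (fun x : Tor d M => V (b + rep x)) n r₀ x y = 0 := by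
          unfold scf
          rw [if_neg]
          intro hxy
          have h3 := hsc x hx y hxy
          rw [mem_im hR2 hCR] at hx
          have h4 := mem_box.1 (hC hx)
          have h5 := sd_triangle b (lf b x) (lf b y)
          omega
        rw [h2, sub_zero]) v
    rw [hφ] at h1
    exact h1
  · intro x hx
    have hx' := hx
    rw [mem_im hR2 hCR] at hx
    have hxb := mem_box.1 (hC hx)
    have h1 := eT_norm (V := V) (Λ := Λ) (E := z - lam) (κ := κ) (b := b) (r₀ := p + r₀ + 1)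
      (m := m) (C' := C') (Q := (4 * d + 2) * (Real.exp (-s) + Real.exp (a - κ * m))) hωpos hω2
      hC'b (x := x) (by omega) (by
        intro y hy
        have h2 := er_lef (K := 2 * d + 2) hκ hdet hΛ
          (fun y hy => box_mono b (by omega) (hC hy)) hm (by positivity) hclu hC'b hVb hG hx hy
        refine le_trans h2 (le_of_eq ?_)
        ring)
    have h2 := le_trans h1 hnum
    have h3 := htail x
    calc ∑ y, ‖eTf z μ lam V n r₀ Λ κ b (p + r₀ + 1) C' x y‖ ^ 2 ≤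
        ∑ y, (2 * ‖eT ω V Λ (z - lam) κ b (p + r₀ + 1) C' x y‖ ^ 2 + 2 * ‖aop ω (1 / μ) lam
        (fun u => sfn z μ lam (fun x : Tor d M => V (b + rep x)) n x u -
          scf z μ lam (fun x : Tor d M => V (b + rep x)) n r₀ x u) y‖ ^ 2) := by
          refine Finset.sum_le_sum fun y _ => ?_
          rw [heTf]
          exact norm_add_sq_le2 _ _
      _ ≤ cB * η * D₀ := by
          rw [Finset.sum_add_distrib, ← Finset.mul_sum, ← Finset.mul_sum]
          linarith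
  · intro x _ q
    have h1 : ft (fun _ : Tor d M => (0 : ℂ)) q = 0 := by
      unfold ft
      simp
    change ‖ft (fun _ : Tor d M => (0 : ℂ)) q‖ ≤ _
    rw [h1, norm_zero]
    have h2 : 0 ≤ A' := hCs.trans hA'
    positivity
  · intro x _
    simp
  · intro x _ p
    exact le_trans ((hsrc x).2.2.2.1 p) hA'
  · intro x _
    refine le_trans (hsrc x).2.2.2.2.1 ?_
    exact mul_le_mul_of_nonneg_right hA' (by positivity)
  · intro x _ p hp
    refine le_trans ((hsrc x).2.2.2.2.2 p) (mul_le_mul_of_nonneg_left ?_ hCs)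
    have hn1 : (1 : ℝ) ≤ n := by exact_mod_cast hn
    have h1 : 0 ≤ (n : ℝ) * (1 + Real.log n) := by
      have := Real.log_nonneg hn1
      positivity
    have h2 := Real.sqrt_le_sqrt (mul_le_mul_of_nonneg_right hp h1)
    linarith

end Pool.Agent.LE.IR.H56
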